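import Mathlib

open Complex Filter Topology

namespace Pool.Agent.R253.IT

/-- The points `T_j = 2^{-(j+1)}`. -/
noncomputable def T (j : ℕ) : ℝ := (1/2)^(j+1)

/-- The weights `κ_j = 2π / ((j+1)(j+2))`, with sum `2π`. -/
noncomputable def kap (j : ℕ) : ℝ := 2 * Real.pi / ((j+1) * (j+2))

/-- The masses `m_j = κ_j T_j`. -/
noncomputable def ms (j : ℕ) : ℝ := kap j * T j

noncomputable def term (j : ℕ) (t : ℂ) : ℂ := (ms j : ℂ) * t / (1 - I * (T j : ℂ) * t)

/-- `H(t) = ∑ m_j t / (1 - i T_j t)`. -/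
noncomputable def H (t : ℂ) : ℂ := ∑' j, term j t

def Om : Set ℂ := {t | ∀ j, 1 - I * (T j : ℂ) * t ≠ 0}

lemma T_pos (j : ℕ) : 0 < T j := by unfold T; positivity

lemma T_le_half (j : ℕ) : T j ≤ 1/2 := by
  unfold T
  rw [pow_succ]
  have : ((1:ℝ)/2)^j ≤ 1 := pow_le_one₀ (by norm_num) (by norm_num)
  linarith

lemma T_tendsto : Tendsto T atTop (𝓝 0) := by
  have h : Tendsto (fun n : ℕ => ((1:ℝ)/2)^n) atTop (𝓝 0) :=
    tendsto_pow_atTop_nhds_zero_of_lt_one (by norm_num) (by norm_num)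
  exact h.comp (tendsto_add_atTop_nat 1)

lemma kap_pos (j : ℕ) : 0 < kap j := by unfold kap; positivity

lemma kap_hasSum (J : ℕ) : HasSum (fun j => kap (j + J)) (2 * Real.pi / (J + 1)) := by
  rw [hasSum_iff_tendsto_nat_of_nonneg (fun j => (kap_pos _).le)]
  have h1 : ∀ n : ℕ, ∑ j ∈ Finset.range n, kap (j + J) =
      2 * Real.pi / (J + 1) - 2 * Real.pi / ((n:ℝ) + J + 1) := by
    intro n
    induction n with
    | zero => simp
    | succ n ih =>
      rw [Finset.sum_range_succ, ih]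
      unfold kap
      push_cast
      have a1 : ((n:ℝ) + J + 1) ≠ 0 := by positivity
      have a2 : ((n:ℝ) + J + 2) ≠ 0 := by positivity
      have a3 : ((n:ℝ) + 1 + J + 1) ≠ 0 := by positivity
      have a4 : ((J:ℝ) + 1) ≠ 0 := by positivity
      field_simp
      ring
  simp_rw [h1]
  have h2 : Tendsto (fun n : ℕ => 2 * Real.pi / ((n:ℝ) + J + 1)) atTop (𝓝 0) := by
    apply Tendsto.div_atTop tendsto_const_nhds
    apply tendsto_atTop_add_const_right
    apply tendsto_atTop_add_const_right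
    exact tendsto_natCast_atTop_atTop
  simpa using (tendsto_const_nhds (x := 2 * Real.pi / ((J:ℝ) + 1))).sub h2

lemma kap_summable : Summable kap := (kap_hasSum 0).summable

lemma ms_pos (j : ℕ) : 0 < ms j := mul_pos (kap_pos j) (T_pos j)

lemma ms_le (j : ℕ) : ms j ≤ kap j := by
  unfold ms
  have := T_le_half j
  nlinarith [kap_pos j]

lemma ms_summable : Summable ms :=
  Summable.of_nonneg_of_le (fun j => (ms_pos j).le) ms_le kap_summable

lemma zero_mem_Om : (0:ℂ) ∈ Om := by intro j; simp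

lemma mem_Om_of_re {t : ℂ} (ht : 0 < t.re) : t ∈ Om := by
  intro j h
  have h1 := congrArg Complex.im h
  simp at h1
  rcases h1 with h1 | h1
  · exact (T_pos j).ne' h1
  · exact ht.ne' h1

/-- uniform lower bound of the denominators near a point of `Om`. -/
lemma exists_lower {t₀ : ℂ} (ht : t₀ ∈ Om) :
    ∃ c : ℝ, 0 < c ∧ ∀ t : ℂ, ‖t - t₀‖ < c → ∀ j, c ≤ ‖1 - I * (T j : ℂ) * t‖ := by
  have h1 : Tendsto (fun j => ‖1 - I * (T j : ℂ) * t₀‖) atTop (𝓝 1) := by
    have h2 : Tendsto (fun j => 1 - I * (T j : ℂ) * t₀) atTop (𝓝 (1 - I * ((0:ℝ):ℂ) * t₀)) := by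
      apply Tendsto.sub tendsto_const_nhds
      apply Tendsto.mul_const
      apply Tendsto.const_mul
      exact (Complex.continuous_ofReal.tendsto 0).comp T_tendsto
    have h3 := h2.norm
    simpa using h3
  have h4 : Tendsto (fun j => (‖1 - I * (T j : ℂ) * t₀‖)⁻¹) atTop (𝓝 1) := by
    simpa using h1.inv₀ one_ne_zero
  obtain ⟨B, hB⟩ := h4.bddAbove_range
  have hB' : ∀ j, (‖1 - I * (T j : ℂ) * t₀‖)⁻¹ ≤ B := fun j => hB ⟨j, rfl⟩
  have hBpos : 0 < B := lt_of_lt_of_le (by
    have := norm_pos_iff.2 (ht 0)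
    positivity) (hB' 0)
  have hlow : ∀ j, B⁻¹ ≤ ‖1 - I * (T j : ℂ) * t₀‖ := by
    intro j
    have hp : 0 < ‖1 - I * (T j : ℂ) * t₀‖ := norm_pos_iff.2 (ht j)
    rw [inv_le_comm₀ hBpos hp]
    exact hB' j
  refine ⟨B⁻¹ / 2, by positivity, ?_⟩
  intro t ht j
  have e1 : 1 - I * (T j : ℂ) * t = (1 - I * (T j : ℂ) * t₀) - I * (T j : ℂ) * (t - t₀) := by ring
  have e2 : ‖I * (T j : ℂ) * (t - t₀)‖ ≤ B⁻¹ / 2 := by
    rw [norm_mul, norm_mul, Complex.norm_I, one_mul, Complex.norm_real, Real.norm_eq_abs,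
      abs_of_pos (T_pos j)]
    have := T_le_half j
    have h0 := T_pos j
    have h5 := norm_nonneg (t - t₀)
    nlinarith
  rw [e1]
  have e3 := norm_sub_norm_le (1 - I * (T j : ℂ) * t₀) (I * (T j : ℂ) * (t - t₀))
  have e4 := hlow j
  linarith

lemma norm_term_le {t : ℂ} {c : ℝ} (hc : 0 < c) (j : ℕ) (h : c ≤ ‖1 - I * (T j : ℂ) * t‖) :
    ‖term j t‖ ≤ ms j * (‖t‖ / c) := by
  unfold term
  rw [norm_div, norm_mul, Complex.norm_real, Real.norm_eq_abs, abs_of_pos (ms_pos j), mul_div_assoc]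
  apply mul_le_mul_of_nonneg_left _ (ms_pos j).le
  exact div_le_div_of_nonneg_left (norm_nonneg _) hc h

lemma term_summable {t : ℂ} (ht : t ∈ Om) : Summable (fun j => term j t) := by
  obtain ⟨c, hc, h⟩ := exists_lower ht
  apply Summable.of_norm_bounded (ms_summable.mul_right (‖t‖ / c))
  intro j
  exact norm_term_le hc j (h t (by simpa using hc) j)

lemma H_analyticAt {t₀ : ℂ} (ht : t₀ ∈ Om) : AnalyticAt ℂ H t₀ := by
  obtain ⟨c, hc, h⟩ := exists_lower ht
  have hd : DifferentiableOn ℂ H (Metric.ball t₀ c) := by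
    unfold H
    apply differentiableOn_tsum_of_summable_norm
      (u := fun j => ms j * ((‖t₀‖ + c) / c)) (ms_summable.mul_right _)
    · intro j t htj
      have hne : 1 - I * (T j : ℂ) * t ≠ 0 := by
        rw [← norm_pos_iff]
        exact lt_of_lt_of_le hc (h t (by simpa [dist_eq_norm] using htj) j)
      unfold term
      apply DifferentiableAt.differentiableWithinAt
      refine DifferentiableAt.fun_div ?_ ?_ hne <;> fun_prop
    · exact Metric.isOpen_ball
    · intro j t htj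
      have h1 : ‖t - t₀‖ < c := by simpa [dist_eq_norm] using htj
      refine (norm_term_le hc j (h t h1 j)).trans ?_
      apply mul_le_mul_of_nonneg_left _ (ms_pos j).le
      apply div_le_div_of_nonneg_right _ hc.le
      have := norm_sub_norm_le t t₀
      linarith
  exact hd.analyticAt (Metric.ball_mem_nhds _ hc)

lemma term_re {t : ℂ} (j : ℕ) (h : 1 - I * (T j : ℂ) * t ≠ 0) :
    (term j t).re = ms j * (t.re / Complex.normSq (1 - I * (T j : ℂ) * t)) := by
  unfold term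
  have hn : Complex.normSq (1 - I * (T j : ℂ) * t) ≠ 0 := by
    rwa [Ne, Complex.normSq_eq_zero]
  rw [Complex.div_re]
  have e : (1 - I * (T j : ℂ) * t).re = 1 + T j * t.im := by simp
  have e' : (1 - I * (T j : ℂ) * t).im = - (T j * t.re) := by simp
  rw [e, e']
  field_simp
  simp
  ring

lemma H_re_nonneg {t : ℂ} (ht : t ∈ Om) (h0 : 0 ≤ t.re) : 0 ≤ (H t).re := by
  unfold H
  rw [Complex.re_tsum (term_summable ht)]
  apply tsum_nonneg
  intro j
  rw [term_re j (ht j)]
  have := ms_pos j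
  have := Complex.normSq_nonneg (1 - I * (T j : ℂ) * t)
  positivity

lemma H_re_zero {t : ℂ} (ht : t ∈ Om) (h0 : t.re = 0) : (H t).re = 0 := by
  unfold H
  rw [Complex.re_tsum (term_summable ht)]
  have : ∀ j, (term j t).re = 0 := by
    intro j
    rw [term_re j (ht j), h0]
    simp
  simp [this]

lemma H_zero : H 0 = 0 := by
  unfold H term
  simp

end Pool.Agent.R253.IT
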