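import Mathlib

open Complex Filter Topology

namespace Pool.Agent.R253.IT

noncomputable def Z (z : ℂ) : ℂ := -I * log z

lemma exp_Z {z : ℂ} (hz : z ≠ 0) : exp (I * Z z) = z := by
  unfold Z
  rw [show I * (-I * log z) = -(I * I) * log z by ring, I_mul_I]
  simp [exp_log hz]

lemma Z_im (z : ℂ) : (Z z).im = -Real.log ‖z‖ := by
  unfold Z
  simp [log_re]

lemma Z_one : Z 1 = 0 := by unfold Z; simp

lemma Z_analyticAt {z : ℂ} (hz : z ∈ slitPlane) : AnalyticAt ℂ Z z := by
  unfold Z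
  have := analyticAt_clog hz
  fun_prop

/-- The map in the logarithmic coordinate. -/
noncomputable def Fl (g : ℂ → ℂ) (ζ : ℂ) : ℂ := Z (g (exp (I * ζ)))

lemma Fl_analyticAt {g : ℂ → ℂ} (hA : AnalyticAt ℂ g 1) (h1 : g 1 = 1) :
    AnalyticAt ℂ (Fl g) 0 := by
  unfold Fl
  have e1 : AnalyticAt ℂ (fun ζ : ℂ => exp (I * ζ)) 0 := by fun_prop
  have e0 : exp (I * 0) = (1:ℂ) := by simp
  have e2 : AnalyticAt ℂ (fun ζ : ℂ => g (exp (I * ζ))) 0 := by
    apply AnalyticAt.fun_comp _ e1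
    rw [e0]
    exact hA
  apply AnalyticAt.fun_comp _ e2
  rw [e0, h1]
  exact Z_analyticAt one_mem_slitPlane

lemma Fl_zero {g : ℂ → ℂ} (h1 : g 1 = 1) : Fl g 0 = 0 := by
  unfold Fl
  simp [h1, Z_one]

theorem loc {g : ℂ → ℂ} (hA : AnalyticAt ℂ g 1) (h1 : g 1 = 1)
    (hT : ∀ᶠ x : ℝ in 𝓝 0, ‖g (exp (I * x))‖ = 1)
    (hle : ∀ z, ‖z‖ < 1 → ‖g z‖ ≤ ‖z‖^2) :
    ∃ ρ C : ℝ, 0 < ρ ∧ ρ ≤ 1 ∧ 0 < C ∧ ∀ ζ : ℂ, ‖ζ‖ ≤ ρ → 0 < ζ.im →
      (3/2) * ‖ζ‖ ≤ ‖Fl g ζ‖ ∧ 0 < (Fl g ζ).im ∧
      (Fl g ζ).im * ‖ζ‖ ≤ ζ.im * ‖Fl g ζ‖ * (1 + C * ‖ζ‖) ∧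
      (ζ.im ≤ ‖ζ‖/2 → 0 < ζ.re → 0 < (Fl g ζ).re) := by
  set F := Fl g with hF
  have hFA : AnalyticAt ℂ F 0 := Fl_analyticAt hA h1
  have hF0 : F 0 = 0 := Fl_zero h1
  set l := deriv F 0 with hl
  -- derivative estimate
  obtain ⟨c, hc⟩ := (hFA.deriv.differentiableAt.isBigO_sub).bound
  have hTr : ∀ᶠ x : ℝ in 𝓝 0, (F x).im = 0 := by
    filter_upwards [hT] with x hx
    rw [hF]
    unfold Fl
    rw [Z_im, hx]
    simp
  have hne : ∀ᶠ ζ : ℂ in 𝓝 0, g (exp (I * ζ)) ≠ 0 := by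
    have e1 : ContinuousAt (fun ζ : ℂ => g (exp (I * ζ))) 0 := by
      apply ContinuousAt.comp'
      · simpa using hA.continuousAt
      · fun_prop
    have e2 : g (exp (I * 0)) ≠ 0 := by simp [h1]
    exact e1.eventually_ne e2
  have hAn : ∀ᶠ ζ : ℂ in 𝓝 0, DifferentiableAt ℂ F ζ := by
    filter_upwards [hFA.eventually_analyticAt] with ζ h
    exact h.differentiableAt
  obtain ⟨R1, hR1, hB⟩ := Metric.eventually_nhds_iff.1 (hc.and (hne.and hAn))
  obtain ⟨R2, hR2, hB2⟩ := Metric.eventually_nhds_iff.1 hTr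
  set C1 := max c 1 with hC1
  have hC1p : 0 < C1 := lt_of_lt_of_le one_pos (le_max_right _ _)
  set R := min (min R1 R2) 1 with hR
  have hRp : 0 < R := by positivity
  have hmv : ∀ s : ℝ, s < R → ∀ x y : ℂ, ‖x‖ ≤ s → ‖y‖ ≤ s →
      ‖(F y - l * y) - (F x - l * x)‖ ≤ C1 * s * ‖y - x‖ := by
    intro s hs x y hx hy
    have hd : ∀ w ∈ Metric.closedBall (0:ℂ) s, DifferentiableAt ℂ (fun w => F w - l * w) w := by
      intro w hw
      have hw' : ‖w‖ ≤ s := by simpa using hw
      have h3 : dist w 0 < R1 := by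
        rw [dist_zero_right]
        exact lt_of_le_of_lt hw' (lt_of_lt_of_le hs ((min_le_left _ _).trans (min_le_left _ _)))
      have h4 := (hB h3).2.2
      fun_prop
    have hb : ∀ w ∈ Metric.closedBall (0:ℂ) s, ‖deriv (fun w => F w - l * w) w‖ ≤ C1 * s := by
      intro w hw
      have hw' : ‖w‖ ≤ s := by simpa using hw
      have h3 : dist w 0 < R1 := by
        rw [dist_zero_right]
        exact lt_of_le_of_lt hw' (lt_of_lt_of_le hs ((min_le_left _ _).trans (min_le_left _ _)))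
      have h4 := (hB h3).2.2
      have h5 := (hB h3).1
      have h6 : deriv (fun w => F w - l * w) w = deriv F w - l := by
        have h7 : HasDerivAt (fun w => F w - l * w) (deriv F w - l * 1) w :=
          h4.hasDerivAt.sub ((hasDerivAt_id w).const_mul l)
        simpa using h7.deriv
      rw [h6]
      rw [sub_zero] at h5
      refine h5.trans ?_
      have h8 : c ≤ C1 := le_max_left _ _
      have h9 := norm_nonneg w
      nlinarith
    exact Convex.norm_image_sub_le_of_norm_deriv_le hd hb (convex_closedBall _ _)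
      (by simpa using hx) (by simpa using hy)
  have hmv0 : ∀ ζ : ℂ, ‖ζ‖ < R → ‖F ζ - l * ζ‖ ≤ C1 * ‖ζ‖ * ‖ζ‖ := by
    intro ζ hζ
    have := hmv ‖ζ‖ hζ 0 ζ (by simp) le_rfl
    simpa [hF0] using this
  -- l is real
  have hlim : l.im = 0 := by
    by_contra hne'
    have hp : 0 < |l.im| := abs_pos.2 hne'
    set x := min (R/2) (|l.im| / (2 * C1)) with hx
    have hxp : 0 < x := by positivity
    have hxR : x < R := lt_of_le_of_lt (min_le_left _ _) (by linarith)
    have hn : ‖(x:ℂ)‖ = x := by rw [Complex.norm_real, Real.norm_eq_abs, abs_of_pos hxp]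
    have h3 := hmv0 (x:ℂ) (by rw [hn]; exact hxR)
    rw [hn] at h3
    have h4 : (F x).im = 0 := by
      apply hB2
      rw [Real.dist_eq, sub_zero, abs_of_pos hxp]
      exact lt_of_lt_of_le hxR ((min_le_left _ _).trans (min_le_right _ _))
    have h5 := (Complex.abs_im_le_norm (F x - l * x)).trans h3
    have h6 : (F x - l * x).im = - (l.im * x) := by
      rw [Complex.sub_im, h4]
      simp
    rw [h6, abs_neg, abs_mul, abs_of_pos hxp] at h5
    have h7 : |l.im| ≤ C1 * x := by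
      have : |l.im| * x ≤ (C1 * x) * x := h5
      exact le_of_mul_le_mul_right this hxp
    have h8 : x ≤ |l.im| / (2 * C1) := min_le_right _ _
    rw [le_div_iff₀ (by positivity)] at h8
    nlinarith
  have hl2 : 2 ≤ l.re := by
    by_contra hlt
    push Not at hlt
    set y := min (R/2) ((2 - l.re) / (2 * C1)) with hy
    have hyp : 0 < y := by
      apply lt_min (by positivity)
      apply div_pos (by linarith) (by positivity)
    have hyR : y < R := lt_of_le_of_lt (min_le_left _ _) (by linarith)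
    have hn : ‖I * (y:ℂ)‖ = y := by
      rw [norm_mul, Complex.norm_I, one_mul, Complex.norm_real, Real.norm_eq_abs, abs_of_pos hyp]
    have h3 := hmv0 (I * (y:ℂ)) (by rw [hn]; exact hyR)
    rw [hn] at h3
    have h3' : dist (I * (y:ℂ)) 0 < R1 := by
      rw [dist_zero_right, hn]
      exact lt_of_lt_of_le hyR ((min_le_left _ _).trans (min_le_left _ _))
    have h4 := (hB h3').2.1
    have h5 : exp (I * (I * y)) = ((Real.exp (-y) : ℝ) : ℂ) := by
      rw [← mul_assoc, I_mul_I]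
      push_cast
      congr 1
      ring
    have h6 : 2 * y ≤ (F (I * y)).im := by
      rw [hF]
      unfold Fl
      rw [Z_im]
      rw [h5] at h4 ⊢
      have h7 : ‖((Real.exp (-y) : ℝ) : ℂ)‖ = Real.exp (-y) := by
        rw [Complex.norm_real, Real.norm_eq_abs, abs_of_pos (Real.exp_pos _)]
      have h8 := hle _ (show ‖((Real.exp (-y) : ℝ) : ℂ)‖ < 1 by
        rw [h7]
        have := Real.exp_lt_exp.2 (show -y < 0 by linarith)
        rwa [Real.exp_zero] at this)
      rw [h7] at h8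
      have h9 := Real.log_le_log (norm_pos_iff.2 h4) h8
      rw [Real.log_pow, Real.log_exp] at h9
      simp only [Nat.cast_ofNat] at h9
      linarith
    have h7 := (Complex.abs_im_le_norm (F (I * y) - l * (I * y))).trans h3
    have h8 : (F (I * y) - l * (I * y)).im = (F (I * y)).im - l.re * y := by
      simp
    rw [h8] at h7
    have h9 := (abs_le.1 h7).2
    have h10 : (2 - l.re) ≤ C1 * y := by
      have : (2 - l.re) * y ≤ (C1 * y) * y := by nlinarith
      exact le_of_mul_le_mul_right this hyp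
    have h11 : y ≤ (2 - l.re) / (2 * C1) := min_le_right _ _
    rw [le_div_iff₀ (by positivity)] at h11
    nlinarith
  refine ⟨min (R/2) (1 / (2 * C1)), 4 * C1, by positivity, ?_, by positivity, ?_⟩
  · have : R ≤ 1 := min_le_right _ _
    exact (min_le_left _ _).trans (by linarith)
  intro ζ hζ him
  have hζR : ‖ζ‖ < R := lt_of_le_of_lt (hζ.trans (min_le_left _ _)) (by linarith)
  have hζC : C1 * ‖ζ‖ ≤ 1/2 := by
    have := hζ.trans (min_le_right _ _)
    rw [le_div_iff₀ (by positivity)] at this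
    linarith
  have hpos : 0 < ‖ζ‖ := by
    rw [norm_pos_iff]
    intro h
    rw [h] at him
    simp at him
  set x := ‖ζ‖ with hx
  have e0 := hmv0 ζ hζR
  have hlr : l = (l.re : ℂ) := by
    apply Complex.ext <;> simp [hlim]
  have hln0 : ‖l‖ = l.re := by
    conv_lhs => rw [hlr]
    rw [Complex.norm_real, Real.norm_eq_abs, abs_of_nonneg (by linarith)]
  have hln : ‖l * ζ‖ = l.re * x := by
    rw [norm_mul, hln0]
  have e1 : (l.re - C1 * x) * x ≤ ‖F ζ‖ := by
    have := norm_sub_norm_le (l * ζ) (l * ζ - F ζ)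
    rw [sub_sub_cancel, norm_sub_rev, hln] at this
    nlinarith
  have e2 : |(F ζ).im - l.re * ζ.im| ≤ C1 * x * ζ.im := by
    have h3 := hmv x hζR (ζ.re : ℂ) ζ (by
      rw [Complex.norm_real, Real.norm_eq_abs]; exact Complex.abs_re_le_norm ζ) le_rfl
    have h4 : ‖ζ - (ζ.re : ℂ)‖ = ζ.im := by
      have : ζ - (ζ.re : ℂ) = I * ζ.im := by
        apply Complex.ext <;> simp
      rw [this, norm_mul, Complex.norm_I, one_mul, Complex.norm_real, Real.norm_eq_abs,
        abs_of_pos him]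
    rw [h4] at h3
    have h5 := (Complex.abs_im_le_norm _).trans h3
    have h6 : (F (ζ.re : ℂ)).im = 0 := by
      apply hB2
      rw [Real.dist_eq, sub_zero]
      exact lt_of_le_of_lt (Complex.abs_re_le_norm ζ)
        (lt_of_lt_of_le hζR ((min_le_left _ _).trans (min_le_right _ _)))
    have h7 : ((F ζ - l * ζ) - (F (ζ.re:ℂ) - l * (ζ.re:ℂ))).im = (F ζ).im - l.re * ζ.im := by
      rw [Complex.sub_im, Complex.sub_im, Complex.sub_im, h6]
      simp [hlim]
    rwa [h7] at h5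
  obtain ⟨e3, e4⟩ := abs_le.1 e2
  refine ⟨?_, ?_, ?_, ?_⟩
  · nlinarith
  · nlinarith
  · have h3 : (F ζ).im * x ≤ (l.re + C1 * x) * ζ.im * x := by
      apply mul_le_mul_of_nonneg_right _ hpos.le
      nlinarith
    have h4 : (l.re + C1 * x) ≤ (l.re - C1 * x) * (1 + 4 * C1 * x) := by
      nlinarith [mul_pos hC1p hpos]
    have h5 : (l.re + C1 * x) * ζ.im * x ≤ ζ.im * (((l.re - C1 * x) * x) * (1 + 4 * C1 * x)) := by
      have h6 : (l.re + C1 * x) * (ζ.im * x) ≤ ((l.re - C1 * x) * (1 + 4 * C1 * x)) * (ζ.im * x) :=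
        mul_le_mul_of_nonneg_right h4 (by positivity)
      nlinarith
    have h6 : ζ.im * (((l.re - C1 * x) * x) * (1 + 4 * C1 * x)) ≤
        ζ.im * (‖F ζ‖ * (1 + 4 * C1 * x)) := by
      apply mul_le_mul_of_nonneg_left _ him.le
      apply mul_le_mul_of_nonneg_right e1
      positivity
    nlinarith
  · intro h3 h4
    have h5 : x / 2 ≤ ζ.re := by
      have h6 : x^2 = ζ.re^2 + ζ.im^2 := by
        rw [hx, ← Complex.normSq_eq_norm_sq, Complex.normSq_apply]; ring
      nlinarith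
    have h6 := (Complex.abs_re_le_norm (F ζ - l * ζ)).trans e0
    have h7 : (F ζ - l * ζ).re = (F ζ).re - l.re * ζ.re := by
      simp [hlim]
    rw [h7] at h6
    have h8 := (abs_le.1 h6).1
    nlinarith

end Pool.Agent.R253.IT
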