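import Mathlib
import Pool.Agent.R253.IT.Loc

open Complex Filter Topology

namespace Pool.Agent.R253.IT

/-- Control of the orbit in the logarithmic coordinate. -/
lemma orbit_control {F : ℂ → ℂ} {ρ C : ℝ} (_hρ : 0 < ρ) (hC : 0 < C)
    (hloc : ∀ ζ : ℂ, ‖ζ‖ ≤ ρ → 0 < ζ.im →
      (3/2) * ‖ζ‖ ≤ ‖F ζ‖ ∧ 0 < (F ζ).im ∧
      (F ζ).im * ‖ζ‖ ≤ ζ.im * ‖F ζ‖ * (1 + C * ‖ζ‖) ∧
      (ζ.im ≤ ‖ζ‖/2 → 0 < ζ.re → 0 < (F ζ).re))
    (ζ : ℕ → ℂ) (N : ℕ) (hstep : ∀ n < N, ζ (n+1) = F (ζ n)) (hle : ∀ n ≤ N, ‖ζ n‖ ≤ ρ)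
    (h0 : 0 < (ζ 0).im) (hre : 0 < (ζ 0).re)
    (hq : (ζ 0).im * Real.exp (2 * C * ρ) ≤ ‖ζ 0‖ / 2) :
    ∀ n ≤ N, 0 < (ζ n).im ∧ 0 < (ζ n).re ∧
      (ζ n).im * ‖ζ 0‖ ≤ (ζ 0).im * ‖ζ n‖ * Real.exp (2 * C * (‖ζ n‖ - ‖ζ 0‖)) := by
  have hpos0 : 0 < ‖ζ 0‖ := by
    rw [norm_pos_iff]; intro h; rw [h] at h0; simp at h0
  intro n
  induction n with
  | zero =>
    intro _
    refine ⟨h0, hre, ?_⟩
    simp
  | succ n ih =>
    intro hn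
    obtain ⟨i1, i2, i3⟩ := ih (by omega)
    have hs := hstep n (by omega)
    have hl := hle n (by omega)
    obtain ⟨l1, l2, l3, l4⟩ := hloc (ζ n) hl i1
    have hpos : 0 < ‖ζ n‖ := by
      rw [norm_pos_iff]; intro h; rw [h] at i1; simp at i1
    have hE : Real.exp (2 * C * (‖ζ n‖ - ‖ζ 0‖)) ≤ Real.exp (2 * C * ρ) := by
      apply Real.exp_le_exp.2
      nlinarith
    have hq' : (ζ n).im ≤ ‖ζ n‖ / 2 := by
      have h1 : (ζ n).im * ‖ζ 0‖ ≤ (‖ζ n‖ / 2) * ‖ζ 0‖ := by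
        calc (ζ n).im * ‖ζ 0‖ ≤ (ζ 0).im * ‖ζ n‖ * Real.exp (2 * C * (‖ζ n‖ - ‖ζ 0‖)) := i3
          _ ≤ (ζ 0).im * ‖ζ n‖ * Real.exp (2 * C * ρ) :=
            mul_le_mul_of_nonneg_left hE (by positivity)
          _ = ((ζ 0).im * Real.exp (2 * C * ρ)) * ‖ζ n‖ := by ring
          _ ≤ (‖ζ 0‖ / 2) * ‖ζ n‖ := mul_le_mul_of_nonneg_right hq hpos.le
          _ = (‖ζ n‖ / 2) * ‖ζ 0‖ := by ring
      exact le_of_mul_le_mul_right h1 hpos0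
    refine ⟨by rw [hs]; exact l2, by rw [hs]; exact l4 hq' i2, ?_⟩
    rw [← hs] at l1 l3
    have h1 : 1 + C * ‖ζ n‖ ≤ Real.exp (2 * C * (‖ζ (n+1)‖ - ‖ζ n‖)) := by
      have h2 := Real.add_one_le_exp (C * ‖ζ n‖)
      have h3 : Real.exp (C * ‖ζ n‖) ≤ Real.exp (2 * C * (‖ζ (n+1)‖ - ‖ζ n‖)) := by
        apply Real.exp_le_exp.2
        nlinarith
      linarith
    have h2 : (ζ (n+1)).im * ‖ζ n‖ * ‖ζ 0‖ ≤
        ((ζ 0).im * ‖ζ (n+1)‖ * Real.exp (2 * C * (‖ζ (n+1)‖ - ‖ζ 0‖))) * ‖ζ n‖ := by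
      have e1 : Real.exp (2 * C * (‖ζ (n+1)‖ - ‖ζ 0‖)) =
          Real.exp (2 * C * (‖ζ n‖ - ‖ζ 0‖)) * Real.exp (2 * C * (‖ζ (n+1)‖ - ‖ζ n‖)) := by
        rw [← Real.exp_add]; congr 1; ring
      calc (ζ (n+1)).im * ‖ζ n‖ * ‖ζ 0‖ ≤
            ((ζ n).im * ‖ζ (n+1)‖ * (1 + C * ‖ζ n‖)) * ‖ζ 0‖ :=
              mul_le_mul_of_nonneg_right l3 hpos0.le
        _ = ((ζ n).im * ‖ζ 0‖) * (‖ζ (n+1)‖ * (1 + C * ‖ζ n‖)) := by ring
        _ ≤ ((ζ 0).im * ‖ζ n‖ * Real.exp (2 * C * (‖ζ n‖ - ‖ζ 0‖))) *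
            (‖ζ (n+1)‖ * (1 + C * ‖ζ n‖)) := mul_le_mul_of_nonneg_right i3 (by positivity)
        _ ≤ ((ζ 0).im * ‖ζ n‖ * Real.exp (2 * C * (‖ζ n‖ - ‖ζ 0‖))) *
            (‖ζ (n+1)‖ * Real.exp (2 * C * (‖ζ (n+1)‖ - ‖ζ n‖))) := by
              apply mul_le_mul_of_nonneg_left _ (by positivity)
              exact mul_le_mul_of_nonneg_left h1 (norm_nonneg _)
        _ = _ := by rw [e1]; ring
    have h3 : ((ζ (n+1)).im * ‖ζ 0‖) * ‖ζ n‖ ≤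
        ((ζ 0).im * ‖ζ (n+1)‖ * Real.exp (2 * C * (‖ζ (n+1)‖ - ‖ζ 0‖))) * ‖ζ n‖ := by
      linarith
    exact le_of_mul_le_mul_right h3 hpos

lemma iter_norm_le {g : ℂ → ℂ} (hle : ∀ z, ‖z‖ < 1 → ‖g z‖ ≤ ‖z‖^2) {z : ℂ} (hz : ‖z‖ < 1) (n : ℕ) :
    ‖g^[n] z‖ ≤ ‖z‖^(n+1) ∧ ‖g^[n] z‖ < 1 := by
  induction n with
  | zero => simpa using hz
  | succ n ih =>
    rw [Function.iterate_succ_apply']
    have h1 := hle _ ih.2
    have h0 := norm_nonneg (g^[n] z)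
    have h2 : ‖g^[n] z‖^2 ≤ (‖z‖^(n+1))^2 := pow_le_pow_left₀ h0 ih.1 2
    have h3 : (‖z‖^(n+1))^2 ≤ ‖z‖^(n+1+1) := by
      rw [← pow_mul]
      apply pow_le_pow_of_le_one (norm_nonneg _) hz.le
      omega
    refine ⟨h1.trans (h2.trans h3), ?_⟩
    have := ih.2
    nlinarith

lemma iter_continuousOn {g : ℂ → ℂ} (hc : ContinuousOn g (Metric.ball 0 1))
    (hle : ∀ z, ‖z‖ < 1 → ‖g z‖ ≤ ‖z‖^2) (n : ℕ) : ContinuousOn (g^[n]) (Metric.ball 0 1) := by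
  induction n with
  | zero => exact continuousOn_id
  | succ n ih =>
    rw [Function.iterate_succ']
    apply hc.comp ih
    intro z hz
    simp only [Metric.mem_ball, dist_zero_right] at hz ⊢
    exact (iter_norm_le hle hz n).2

/-- **Escape along the circle.** -/
theorem escape {g : ℂ → ℂ} (hc : ContinuousOn g (Metric.ball 0 1)) (hA : AnalyticAt ℂ g 1)
    (h1 : g 1 = 1) (hT : ∀ᶠ x : ℝ in 𝓝 0, ‖g (exp (I * x))‖ = 1)
    (hle : ∀ z, ‖z‖ < 1 → ‖g z‖ ≤ ‖z‖^2)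
    (γ : ℝ → ℂ) (hγc : ContinuousOn γ (Set.Ioo 0 1)) (hγ : ∀ r ∈ Set.Ioo (0:ℝ) 1, ‖γ r‖ < 1)
    (hγ1 : Tendsto γ (𝓝[<] 1) (𝓝 1))
    (hγre : ∀ᶠ r in 𝓝[<] (1:ℝ), 0 < (Z (γ r)).re)
    (hγq : Tendsto (fun r => (Z (γ r)).im / ‖Z (γ r)‖) (𝓝[<] 1) (𝓝 0)) :
    ∃ b : ℝ, 0 < b ∧ b < 1 ∧ ∀ b' : ℝ, 0 < b' → b' ≤ b → ∀ ε : ℝ, 0 < ε → ∀ r₀ : ℝ, r₀ < 1 →
      ∃ r : ℝ, r₀ < r ∧ 0 < r ∧ r < 1 ∧ ∃ N : ℕ, ‖g^[N] (γ r) - 1‖ = b' ∧
        Real.exp (-ε) ≤ ‖g^[N] (γ r)‖ ∧ ‖g^[N] (γ r)‖ < 1 ∧ 0 < (g^[N] (γ r)).im := by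
  obtain ⟨ρ, C, hρ, hρ1, hC, hloc⟩ := loc hA h1 hT hle
  have hZc : Tendsto Z (𝓝 1) (𝓝 0) := by
    have := (Z_analyticAt one_mem_slitPlane).continuousAt.tendsto
    rwa [Z_one] at this
  obtain ⟨b0, hb0, hb0'⟩ := Metric.tendsto_nhds_nhds.1 hZc ρ hρ
  refine ⟨min (b0/2) (1/2), by positivity, lt_of_le_of_lt (min_le_right _ _) (by norm_num), ?_⟩
  intro b' hb' hb'le ε hε r₀ hr₀
  have hnear : ∀ z : ℂ, ‖z - 1‖ ≤ b' → ‖Z z‖ ≤ ρ ∧ z ≠ 0 := by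
    intro z hz
    constructor
    · have := @hb0' z (by
        rw [dist_eq_norm]
        have : b' ≤ b0/2 := hb'le.trans (min_le_left _ _)
        linarith)
      rw [dist_zero_right] at this
      exact this.le
    · rintro rfl
      rw [zero_sub, norm_neg, norm_one] at hz
      have : b' ≤ 1/2 := hb'le.trans (min_le_right _ _)
      linarith
  -- the good range of r
  set δ := min (1/2) ε * Real.exp (-(2 * C * ρ)) with hδ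
  have hδp : 0 < δ := by positivity
  have hev : ∀ᶠ r in 𝓝[<] (1:ℝ), 0 < (Z (γ r)).re ∧ (Z (γ r)).im / ‖Z (γ r)‖ < δ ∧ r₀ < r ∧ 0 < r := by
    have e1 : ∀ᶠ r in 𝓝[<] (1:ℝ), (Z (γ r)).im / ‖Z (γ r)‖ < δ := hγq.eventually_lt_const hδp
    have e2 : ∀ᶠ r in 𝓝[<] (1:ℝ), r₀ < r ∧ 0 < r := by
      have : Set.Ioi (max r₀ 0) ∈ 𝓝 (1:ℝ) := Ioi_mem_nhds (max_lt hr₀ one_pos)
      filter_upwards [nhdsWithin_le_nhds this] with r hr
      exact ⟨lt_of_le_of_lt (le_max_left _ _) hr, lt_of_le_of_lt (le_max_right _ _) hr⟩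
    filter_upwards [hγre, e1, e2] with r a1 a2 a3
    exact ⟨a1, a2, a3.1, a3.2⟩
  obtain ⟨r₁, hr₁, hr₁'⟩ := (mem_nhdsLT_iff_exists_Ioo_subset (a := (1:ℝ))).1 hev
  set ra := (max r₁ 0 + 1) / 2 with hra
  have hr₁1 : r₁ < 1 := hr₁
  have hra1 : ra < 1 := by
    have : max r₁ 0 < 1 := max_lt hr₁1 one_pos
    rw [hra]; linarith
  have hra2 : r₁ < ra := by
    have : max r₁ 0 < 1 := max_lt hr₁1 one_pos
    have := le_max_left r₁ 0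
    rw [hra]; linarith
  have hra0 : 0 < ra := by
    have := le_max_right r₁ 0
    rw [hra]; linarith
  -- the orbit of γ ra goes to 0
  have hz : Tendsto (fun n => g^[n] (γ ra)) atTop (𝓝 0) := by
    rw [tendsto_zero_iff_norm_tendsto_zero]
    have hlt := hγ ra ⟨hra0, hra1⟩
    have h2 : Tendsto (fun n : ℕ => ‖γ ra‖^(n+1)) atTop (𝓝 0) :=
      (tendsto_pow_atTop_nhds_zero_of_lt_one (norm_nonneg _) hlt).comp (tendsto_add_atTop_nat 1)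
    exact squeeze_zero (fun n => norm_nonneg _) (fun n => (iter_norm_le hle hlt n).1) h2
  have hz1 : Tendsto (fun n => ‖g^[n] (γ ra) - 1‖) atTop (𝓝 1) := by
    have := (hz.sub_const 1).norm
    simpa using this
  obtain ⟨N₁, hN₁⟩ := (hz1.eventually_const_lt (show b' < 1 by
    have : b' ≤ 1/2 := hb'le.trans (min_le_right _ _)
    linarith)).exists
  -- near 1, all small
  have hcont1 : ∀ n : ℕ, Tendsto (fun r => ‖g^[n] (γ r) - 1‖) (𝓝[<] 1) (𝓝 0) := by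
    intro n
    have hcn : ContinuousAt (g^[n]) 1 := ContinuousAt.iterate hA.continuousAt h1 n
    have hfix : g^[n] 1 = 1 := Function.iterate_fixed h1 n
    have h2 : Tendsto (fun r => g^[n] (γ r)) (𝓝[<] 1) (𝓝 1) := by
      have := hcn.tendsto.comp hγ1
      rwa [hfix] at this
    simpa using (h2.sub_const 1).norm
  have hall : ∀ᶠ r in 𝓝[<] (1:ℝ), ∀ n ∈ Finset.range (N₁+1), ‖g^[n] (γ r) - 1‖ < b' := by
    rw [Filter.eventually_all_finset]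
    intro n _
    exact (hcont1 n).eventually_lt_const hb'
  have hex : ∃ rb : ℝ, ra < rb ∧ rb < 1 ∧ ∀ n ∈ Finset.range (N₁+1), ‖g^[n] (γ rb) - 1‖ < b' := by
    have e3 : ∀ᶠ r in 𝓝[<] (1:ℝ), ra < r := nhdsWithin_le_nhds (Ioi_mem_nhds hra1)
    have e4 : ∀ᶠ r in 𝓝[<] (1:ℝ), r < 1 := self_mem_nhdsWithin
    obtain ⟨rb, a1, a2, a3⟩ := (hall.and (e3.and e4)).exists
    exact ⟨rb, a2, a3, a1⟩
  obtain ⟨rb, hrb1, hrb2, hrb3⟩ := hex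
  -- the maximum function
  have hne : (Finset.range (N₁+1)).Nonempty := ⟨0, by simp⟩
  set M : ℝ → ℝ := fun r => (Finset.range (N₁+1)).sup' hne (fun n => ‖g^[n] (γ r) - 1‖) with hM
  have hMc : ContinuousOn M (Set.Icc ra rb) := by
    apply ContinuousOn.finset_sup'_apply
    intro n _
    have e5 : ContinuousOn (fun r => g^[n] (γ r)) (Set.Icc ra rb) := by
      apply (iter_continuousOn hc hle n).comp (hγc.mono _)
      · intro r hr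
        simp only [Metric.mem_ball, dist_zero_right]
        exact hγ r ⟨lt_of_lt_of_le hra0 hr.1, lt_of_le_of_lt hr.2 hrb2⟩
      · intro r hr
        exact ⟨lt_of_lt_of_le hra0 hr.1, lt_of_le_of_lt hr.2 hrb2⟩
    exact (e5.sub continuousOn_const).norm
  have hMa : b' ≤ M ra := by
    refine hN₁.le.trans ?_
    exact Finset.le_sup' (fun n => ‖g^[n] (γ ra) - 1‖) (Finset.mem_range.2 (by omega))
  have hMb : M rb ≤ b' := by
    apply Finset.sup'_le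
    intro n hn
    exact (hrb3 n hn).le
  obtain ⟨r, hr, hrM⟩ := intermediate_value_Icc' hrb1.le hMc ⟨hMb, hMa⟩
  have hr01 : r ∈ Set.Ioo (0:ℝ) 1 := ⟨lt_of_lt_of_le hra0 hr.1, lt_of_le_of_lt hr.2 hrb2⟩
  obtain ⟨N, hN, hNe⟩ := Finset.exists_mem_eq_sup' hne (fun n => ‖g^[n] (γ r) - 1‖)
  have hNle : ∀ n ≤ N, ‖g^[n] (γ r) - 1‖ ≤ b' := by
    intro n hn
    rw [← hrM]
    apply Finset.le_sup' (fun n => ‖g^[n] (γ r) - 1‖)
    rw [Finset.mem_range] at hN ⊢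
    omega
  have hNeq : ‖g^[N] (γ r) - 1‖ = b' := by
    rw [← hrM]
    exact hNe.symm
  have hgood : 0 < (Z (γ r)).re ∧ (Z (γ r)).im / ‖Z (γ r)‖ < δ ∧ r₀ < r ∧ 0 < r :=
    hr₁' ⟨lt_of_lt_of_le hra2 hr.1, hr01.2⟩
  obtain ⟨g1, g2, g3, g4⟩ := hgood
  -- the orbit in logarithmic coordinates
  have hlt : ‖γ r‖ < 1 := hγ r hr01
  set ζ : ℕ → ℂ := fun n => Z (g^[n] (γ r)) with hζ
  have hγne : γ r ≠ 0 := (hnear _ (hNle 0 (Nat.zero_le _))).2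
  have him0 : 0 < (ζ 0).im := by
    simp only [hζ, Function.iterate_zero, id_eq]
    rw [Z_im]
    have := Real.log_neg (norm_pos_iff.2 hγne) hlt
    linarith
  have hstep : ∀ n < N, ζ (n+1) = Fl g (ζ n) := by
    intro n hn
    simp only [hζ]
    rw [Function.iterate_succ_apply']
    unfold Fl
    rw [exp_Z (hnear _ (hNle n hn.le)).2]
  have hzle : ∀ n ≤ N, ‖ζ n‖ ≤ ρ := fun n hn => (hnear _ (hNle n hn)).1
  have hpos0 : 0 < ‖ζ 0‖ := by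
    rw [norm_pos_iff]; intro h; rw [h] at him0; simp at him0
  have hq0 : (ζ 0).im ≤ δ * ‖ζ 0‖ := by
    have : (ζ 0).im / ‖ζ 0‖ < δ := g2
    rw [div_lt_iff₀ hpos0] at this
    exact this.le
  have hδe : δ * Real.exp (2 * C * ρ) = min (1/2) ε := by
    rw [hδ, mul_assoc, ← Real.exp_add]
    simp
  have hq1 : (ζ 0).im * Real.exp (2 * C * ρ) ≤ min (1/2) ε * ‖ζ 0‖ := by
    rw [← hδe]
    have := Real.exp_pos (2 * C * ρ)
    nlinarith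
  have hq2 : (ζ 0).im * Real.exp (2 * C * ρ) ≤ ‖ζ 0‖ / 2 := by
    have : min (1/2) ε ≤ 1/2 := min_le_left _ _
    nlinarith
  obtain ⟨k1, k2, k3⟩ := orbit_control hρ hC hloc ζ N hstep hzle him0 g1 hq2 N le_rfl
  refine ⟨r, g3, g4, hr01.2, N, hNeq, ?_, (iter_norm_le hle hlt N).2, ?_⟩
  · have h5 : (ζ N).im ≤ ε := by
      have h6 : (ζ N).im * ‖ζ 0‖ ≤ ε * ‖ζ 0‖ := by
        have hE : Real.exp (2 * C * (‖ζ N‖ - ‖ζ 0‖)) ≤ Real.exp (2 * C * ρ) := by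
          apply Real.exp_le_exp.2
          have := hzle N le_rfl
          nlinarith
        calc (ζ N).im * ‖ζ 0‖ ≤ (ζ 0).im * ‖ζ N‖ * Real.exp (2 * C * (‖ζ N‖ - ‖ζ 0‖)) := k3
          _ ≤ (ζ 0).im * ‖ζ N‖ * Real.exp (2 * C * ρ) :=
            mul_le_mul_of_nonneg_left hE (by positivity)
          _ = ((ζ 0).im * Real.exp (2 * C * ρ)) * ‖ζ N‖ := by ring
          _ ≤ (min (1/2) ε * ‖ζ 0‖) * ‖ζ N‖ := mul_le_mul_of_nonneg_right hq1 (norm_nonneg _)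
          _ ≤ (min (1/2) ε * ‖ζ 0‖) * 1 := by
            apply mul_le_mul_of_nonneg_left ((hzle N le_rfl).trans hρ1)
            positivity
          _ ≤ ε * ‖ζ 0‖ := by
            rw [mul_one]
            exact mul_le_mul_of_nonneg_right (min_le_right _ _) hpos0.le
      exact le_of_mul_le_mul_right h6 hpos0
    simp only [hζ] at h5
    rw [Z_im] at h5
    have hp : 0 < ‖g^[N] (γ r)‖ := norm_pos_iff.2 (hnear _ (hNle N le_rfl)).2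
    rw [← Real.le_log_iff_exp_le hp]
    linarith
  · have h6 : g^[N] (γ r) = exp (I * ζ N) := (exp_Z (hnear _ (hNle N le_rfl)).2).symm
    rw [h6, Complex.exp_im]
    have h7 : (I * ζ N).im = (ζ N).re := by simp
    rw [h7]
    apply mul_pos (Real.exp_pos _)
    apply Real.sin_pos_of_pos_of_lt_pi k2
    have h8 := Complex.abs_re_le_norm (ζ N)
    have h9 := hzle N le_rfl
    have := le_abs_self (ζ N).re
    have := Real.pi_gt_three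
    linarith

end Pool.Agent.R253.IT
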