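import Mathlib
import Pool.Agent.R253.IT.Basic

open Complex Filter Topology

namespace Pool.Agent.R253.IT

noncomputable def tz (z : ℂ) : ℂ := (1 - z^3) / (1 + z^3)

/-- The inner function. -/
noncomputable def f (z : ℂ) : ℂ := z^2 * exp (-H (tz z))

/-- The set of good points. -/
def G : Set ℂ := {z | 1 + z^3 ≠ 0 ∧ tz z ∈ Om}

lemma tz_re (z : ℂ) : (tz z).re = (1 - (‖z‖^3)^2) / normSq (1 + z^3) := by
  unfold tz
  rw [Complex.div_re]
  have h : (‖z‖^3)^2 = (z^3).re^2 + (z^3).im^2 := by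
    rw [← norm_pow, ← Complex.normSq_eq_norm_sq, Complex.normSq_apply]
    ring
  rw [h]
  by_cases hn : normSq (1 + z^3) = 0
  · simp [hn]
  · simp only [Complex.sub_re, Complex.add_re, Complex.one_re, Complex.sub_im, Complex.add_im,
      Complex.one_im]
    field_simp
    ring

lemma ball_sub_G {z : ℂ} (hz : ‖z‖ < 1) : z ∈ G := by
  have h1 : (1:ℂ) + z^3 ≠ 0 := by
    intro h
    have h2 : z^3 = -1 := by linear_combination h
    have h3 := congrArg norm h2
    rw [norm_pow, norm_neg, norm_one] at h3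
    have h4 : ‖z‖^3 < 1 := pow_lt_one₀ (norm_nonneg _) hz (by norm_num)
    linarith
  refine ⟨h1, mem_Om_of_re ?_⟩
  rw [tz_re]
  have h4 : ‖z‖^3 < 1 := pow_lt_one₀ (norm_nonneg _) hz (by norm_num)
  have h5 : (‖z‖^3)^2 < 1 := pow_lt_one₀ (by positivity) h4 (by norm_num)
  have h6 : 0 < normSq (1 + z^3) := normSq_pos.2 h1
  apply div_pos _ h6
  linarith

lemma tz_re_nonneg {z : ℂ} (hz : ‖z‖ ≤ 1) : 0 ≤ (tz z).re := by
  rw [tz_re]
  have h4 : ‖z‖^3 ≤ 1 := pow_le_one₀ (norm_nonneg _) hz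
  have h5 : (‖z‖^3)^2 ≤ 1 := pow_le_one₀ (by positivity) h4
  have := normSq_nonneg (1 + z^3)
  apply div_nonneg _ this
  linarith

lemma tz_re_zero {z : ℂ} (hz : ‖z‖ = 1) : (tz z).re = 0 := by
  rw [tz_re, hz]
  simp

lemma f_analyticAt {z : ℂ} (hz : z ∈ G) : AnalyticAt ℂ f z := by
  unfold f
  have h1 : AnalyticAt ℂ tz z := by
    unfold tz
    refine AnalyticAt.fun_div ?_ ?_ hz.1 <;> fun_prop
  have h2 : AnalyticAt ℂ (fun z => H (tz z)) z := (H_analyticAt hz.2).comp h1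
  fun_prop

lemma f_norm (z : ℂ) : ‖f z‖ = ‖z‖^2 * Real.exp (-(H (tz z)).re) := by
  unfold f
  rw [norm_mul, norm_pow, Complex.norm_exp]
  simp

lemma f_norm_le {z : ℂ} (hz : ‖z‖ < 1) : ‖f z‖ ≤ ‖z‖^2 := by
  rw [f_norm]
  have h1 := H_re_nonneg (ball_sub_G hz).2 (tz_re_nonneg hz.le)
  have h2 : Real.exp (-(H (tz z)).re) ≤ 1 := Real.exp_le_one_iff.2 (by linarith)
  have := sq_nonneg ‖z‖
  nlinarith

lemma f_norm_one {z : ℂ} (hz : ‖z‖ = 1) (hG : z ∈ G) : ‖f z‖ = 1 := by
  rw [f_norm, H_re_zero hG.2 (tz_re_zero hz), hz]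
  simp

lemma tz_one : tz 1 = 0 := by unfold tz; simp

lemma tz_cube {z : ℂ} (h : z^3 = 1) : tz z = 0 := by unfold tz; rw [h]; simp

lemma G_cube {z : ℂ} (h : z^3 = 1) : z ∈ G := by
  refine ⟨by rw [h]; norm_num, ?_⟩
  rw [tz_cube h]
  exact zero_mem_Om

lemma f_cube {z : ℂ} (h : z^3 = 1) : f z = z^2 := by
  unfold f
  rw [tz_cube h, H_zero]
  simp

lemma f_one : f 1 = 1 := by rw [f_cube (by norm_num)]; norm_num

lemma f_zero : f 0 = 0 := by unfold f; simp

/-- the set of `t` with `exp(3it) = w` is countable. -/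
lemma countable_level (w : ℂ) : {t : ℝ | (exp (t * I))^3 = w}.Countable := by
  by_cases h : ∃ t₀ : ℝ, (exp (t₀ * I))^3 = w
  · obtain ⟨t₀, ht₀⟩ := h
    have hsub : {t : ℝ | (exp (t * I))^3 = w} ⊆
        Set.range (fun k : ℤ => t₀ + k * (2 * Real.pi) / 3) := by
      intro t ht
      simp only [Set.mem_ofPred_eq] at ht
      rw [← ht₀, ← Complex.exp_nat_mul, ← Complex.exp_nat_mul, Complex.exp_eq_exp_iff_exists_int] at ht
      obtain ⟨n, hn⟩ := ht
      refine ⟨n, ?_⟩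
      have h1 := congrArg Complex.im hn
      simp at h1
      simp only
      linarith
    exact (Set.countable_range _).mono hsub
  · push Not at h
    have : {t : ℝ | (exp (t * I))^3 = w} = ∅ := by
      ext t
      simp [h t]
    rw [this]
    exact Set.countable_empty

lemma bad_countable : {t : ℝ | exp (t * I) ∉ G}.Countable := by
  have hsub : {t : ℝ | exp (t * I) ∉ G} ⊆ {t : ℝ | (exp (t * I))^3 = -1} ∪
      ⋃ j : ℕ, {t : ℝ | (exp (t * I))^3 = (I * T j - 1) / (I * T j + 1)} := by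
    intro t ht
    simp only [Set.mem_ofPred_eq] at ht
    by_cases h1 : (1:ℂ) + (exp (t * I))^3 = 0
    · left
      simp only [Set.mem_ofPred_eq]
      linear_combination h1
    · right
      have h2 : tz (exp (t * I)) ∉ Om := fun h => ht ⟨h1, h⟩
      unfold Om at h2
      simp only [Set.mem_ofPred_eq, not_forall, not_not] at h2
      obtain ⟨j, hj⟩ := h2
      rw [Set.mem_iUnion]
      refine ⟨j, ?_⟩
      simp only [Set.mem_ofPred_eq]
      unfold tz at hj
      have h3 : (I * (T j : ℂ) + 1) ≠ 0 := by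
        intro h
        have := congrArg Complex.re h
        simp at this
      rw [eq_div_iff h3]
      have key : ∀ w : ℂ, 1 + w^3 ≠ 0 → 1 - I * (T j:ℂ) * ((1 - w^3)/(1+w^3)) = 0 →
          w^3 * (I*T j+1) = I * T j - 1 := by
        intro w hw h
        have e : (1 - I * (T j:ℂ) * ((1 - w^3)/(1+w^3))) * (1+w^3) =
            (1 + w^3) - I * T j * (1 - w^3) := by field_simp
        rw [h, zero_mul] at e
        linear_combination (-1 : ℂ) * e
      exact key _ h1 hj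
  apply Set.Countable.mono hsub
  apply Set.Countable.union (countable_level _)
  exact Set.countable_iUnion (fun j => countable_level _)

/-- `f` is inner. -/
lemma f_inner : ∀ᵐ t : ℝ, ∃ ζ : ℂ, ‖ζ‖ = 1 ∧
    Tendsto (fun r : ℝ => f (r * exp (t * I))) (𝓝[<] 1) (𝓝 ζ) := by
  have h0 : ∀ᵐ t : ℝ, exp (t * I) ∈ G := by
    rw [MeasureTheory.ae_iff]
    exact bad_countable.measure_zero _
  filter_upwards [h0] with t ht
  refine ⟨f (exp (t * I)), f_norm_one (Complex.norm_exp_ofReal_mul_I t) ht, ?_⟩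
  have h1 : ContinuousAt f (exp (t * I)) := (f_analyticAt ht).continuousAt
  have h2 : Tendsto (fun r : ℝ => (r:ℂ) * exp (t * I)) (𝓝 1) (𝓝 (((1:ℝ):ℂ) * exp (t * I))) := by
    apply Continuous.tendsto
    fun_prop
  have h3 : Tendsto (fun r : ℝ => f (r * exp (t * I))) (𝓝 1) (𝓝 (f (exp (t * I)))) := by
    apply Tendsto.comp h1
    simpa using h2
  exact h3.mono_left nhdsWithin_le_nhds

end Pool.Agent.R253.IT
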