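import Mathlib
import Pool.Agent.R253.IT.Fun
import Pool.Agent.R253.IT.Loc

open Complex Filter Topology

namespace Pool.Agent.R253.IT

noncomputable def thj (j : ℕ) (δ : ℝ) : ℝ := kap j * (δ^2 / (δ^2 + T j^2))
noncomputable def uj (j : ℕ) (δ : ℝ) : ℝ := kap j * (T j * δ / (δ^2 + T j^2))
noncomputable def th (δ : ℝ) : ℝ := ∑' j, thj j δ
noncomputable def uu (δ : ℝ) : ℝ := ∑' j, uj j δ

lemma thj_nonneg (j : ℕ) (δ : ℝ) : 0 ≤ thj j δ := by
  unfold thj
  have := kap_pos j
  positivity

lemma thj_le (j : ℕ) (δ : ℝ) : thj j δ ≤ kap j := by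
  unfold thj
  have h1 := T_pos j
  have h2 : δ^2 / (δ^2 + T j^2) ≤ 1 := by
    rw [div_le_one (by positivity)]
    nlinarith
  have := kap_pos j
  nlinarith

lemma thj_summable (δ : ℝ) : Summable (fun j => thj j δ) :=
  Summable.of_nonneg_of_le (fun j => thj_nonneg j δ) (fun j => thj_le j δ) kap_summable

lemma uj_nonneg (j : ℕ) {δ : ℝ} (hδ : 0 < δ) : 0 ≤ uj j δ := by
  unfold uj
  have := kap_pos j
  have := T_pos j
  positivity

lemma uj_le (j : ℕ) {δ : ℝ} (hδ : 0 < δ) : uj j δ ≤ kap j := by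
  unfold uj
  have h1 := T_pos j
  have h2 : T j * δ / (δ^2 + T j^2) ≤ 1 := by
    rw [div_le_one (by positivity)]
    nlinarith [sq_nonneg (δ - T j)]
  have := kap_pos j
  nlinarith

lemma uj_summable {δ : ℝ} (hδ : 0 < δ) : Summable (fun j => uj j δ) :=
  Summable.of_nonneg_of_le (fun j => uj_nonneg j hδ) (fun j => uj_le j hδ) kap_summable

lemma th_tendsto : Tendsto th (𝓝 0) (𝓝 0) := by
  have h : Tendsto th (𝓝 0) (𝓝 (∑' _ : ℕ, (0:ℝ))) := by
    unfold th
    apply tendsto_tsum_of_dominated_convergence kap_summable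
    · intro j
      have h1 := T_pos j
      have h2 : ContinuousAt (fun δ : ℝ => thj j δ) 0 := by
        unfold thj
        have : (0:ℝ)^2 + T j^2 ≠ 0 := by positivity
        fun_prop (disch := assumption)
      have h3 : thj j 0 = 0 := by unfold thj; simp
      have := h2.tendsto
      rwa [h3] at this
    · filter_upwards with δ j
      rw [Real.norm_eq_abs, abs_of_nonneg (thj_nonneg j δ)]
      exact thj_le j δ
  simpa using h

/-- the tail of `th`. -/
lemma th_ge {J : ℕ} {δ : ℝ} (h : T J < δ) : Real.pi / (J + 1) ≤ th δ := by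
  have hδ : 0 < δ := (T_pos J).trans h
  have h1 : ∀ j, kap (j + J) * (1/2) ≤ thj (j + J) δ := by
    intro j
    unfold thj
    apply mul_le_mul_of_nonneg_left _ (kap_pos _).le
    have h2 : T (j + J) ≤ T J := by
      unfold T
      apply pow_le_pow_of_le_one (by norm_num) (by norm_num)
      omega
    have h3 := T_pos (j + J)
    rw [le_div_iff₀ (by positivity)]
    nlinarith
  have h4 : ∑' j, thj (j + J) δ ≤ th δ := by
    unfold th
    rw [← (thj_summable δ).sum_add_tsum_nat_add J]
    have : 0 ≤ ∑ j ∈ Finset.range J, thj j δ := Finset.sum_nonneg (fun j _ => thj_nonneg j δ)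
    linarith
  have h5 : ∑' j, kap (j + J) * (1/2) ≤ ∑' j, thj (j + J) δ := by
    apply Summable.tsum_le_tsum h1
    · exact ((kap_hasSum J).summable).mul_right _
    · exact (summable_nat_add_iff J).2 (thj_summable δ)
  rw [tsum_mul_right, (kap_hasSum J).tsum_eq] at h5
  have h6 : 2 * Real.pi / (J + 1) * (1/2) = Real.pi / (J + 1) := by ring
  rw [h6] at h5
  linarith

lemma geo_sum (J : ℕ) : ∑ j ∈ Finset.range J, kap j * 2^j ≤ 5 * (kap J * 2^J) := by
  have step : ∀ J : ℕ, 2 ≤ J → kap J * 2^J * 6 ≤ 5 * (kap (J+1) * 2^(J+1)) := by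
    intro J hJ
    have hJ' : (2:ℝ) ≤ J := by exact_mod_cast hJ
    unfold kap
    push_cast
    rw [pow_succ]
    have hp : (0:ℝ) < 2^J := by positivity
    have hpi := Real.pi_pos
    rw [show (2 * Real.pi / (((J:ℝ)+1) * (J+2)) * 2^J * 6) =
      (2 * Real.pi * 2^J) * (6 / (((J:ℝ)+1) * (J+2))) by ring,
      show (5 * (2 * Real.pi / (((J:ℝ)+1+1) * (J+1+2)) * (2^J * 2))) =
      (2 * Real.pi * 2^J) * (10 / (((J:ℝ)+1+1) * (J+1+2))) by ring]
    apply mul_le_mul_of_nonneg_left _ (by positivity)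
    rw [div_le_div_iff₀ (by positivity) (by positivity)]
    nlinarith
  induction J with
  | zero =>
    simp only [Finset.range_zero, Finset.sum_empty]
    have := kap_pos 0
    positivity
  | succ J ih =>
    rw [Finset.sum_range_succ]
    rcases Nat.lt_or_ge J 2 with h | h
    · interval_cases J
      · simp only [Finset.range_zero, Finset.sum_empty]
        unfold kap
        norm_num
        have := Real.pi_pos
        nlinarith
      · simp only [Finset.range_one, Finset.sum_singleton]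
        unfold kap
        norm_num
        have := Real.pi_pos
        nlinarith
    · have := step J h
      linarith

lemma uu_le {J : ℕ} {δ : ℝ} (h : T J < δ) (h' : δ ≤ 2 * T J) : uu δ ≤ 12 * kap J := by
  have hδ : 0 < δ := (T_pos J).trans h
  unfold uu
  rw [← (uj_summable hδ).sum_add_tsum_nat_add J]
  have hTJ := T_pos J
  have e1 : ∑ j ∈ Finset.range J, uj j δ ≤ 10 * kap J := by
    have h1 : ∀ j ∈ Finset.range J, uj j δ ≤ (kap j * 2^j) * (2 / 2^J) := by
      intro j hj
      unfold uj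
      rw [mul_assoc]
      apply mul_le_mul_of_nonneg_left _ (kap_pos _).le
      have h2 := T_pos j
      have h3 : T j * δ / (δ^2 + T j^2) ≤ δ / T j := by
        rw [div_le_div_iff₀ (by positivity) h2]
        nlinarith [mul_pos hδ (mul_pos hδ hδ)]
      have h4 : δ / T j ≤ 2 * T J / T j := div_le_div_of_nonneg_right h' h2.le
      have h5 : 2 * T J / T j = 2^j * (2 / 2^J) := by
        unfold T
        rw [one_div, inv_pow, inv_pow]
        field_simp
        ring
      linarith
    have h2 := Finset.sum_le_sum h1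
    rw [← Finset.sum_mul] at h2
    have h3 := geo_sum J
    have hp : (0:ℝ) < 2^J := by positivity
    have h4 : (∑ j ∈ Finset.range J, kap j * 2^j) * (2 / 2^J) ≤ 5 * (kap J * 2^J) * (2 / 2^J) :=
      mul_le_mul_of_nonneg_right h3 (by positivity)
    have h5 : 5 * (kap J * 2^J) * (2 / 2^J) = 10 * kap J := by
      field_simp
      ring
    linarith
  have e2 : ∑' j, uj (j + J) δ ≤ 2 * kap J := by
    have h1 : ∀ j, uj (j + J) δ ≤ kap J * (1/2)^j := by
      intro j
      unfold uj
      have h2 := T_pos (j + J)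
      have h3 : T (j + J) * δ / (δ^2 + T (j+J)^2) ≤ (1/2)^j := by
        have h4 : T (j + J) = T J * (1/2)^j := by
          unfold T
          rw [← pow_add]
          congr 1
          omega
        rw [div_le_iff₀ (by positivity), h4]
        have h5 : (0:ℝ) < (1/2)^j := by positivity
        have h6 : T J * (1/2)^j * δ ≤ (1/2)^j * δ^2 := by
          have : T J * δ ≤ δ^2 := by nlinarith
          nlinarith
        have h7 : 0 ≤ (1/2:ℝ)^j * (T J * (1/2)^j)^2 := by positivity
        linarith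
      have h8 : kap (j + J) ≤ kap J := by
        unfold kap
        apply div_le_div_of_nonneg_left (by have := Real.pi_pos; positivity) (by positivity)
        push_cast
        have : (0:ℝ) ≤ j := by positivity
        have : (0:ℝ) ≤ J := by positivity
        nlinarith
      have h9 : 0 ≤ T (j + J) * δ / (δ^2 + T (j+J)^2) := by positivity
      have := kap_pos (j + J)
      have := kap_pos J
      calc kap (j + J) * (T (j + J) * δ / (δ^2 + T (j+J)^2)) ≤ kap J * (T (j + J) * δ / (δ^2 + T (j+J)^2)) :=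
            mul_le_mul_of_nonneg_right h8 h9
        _ ≤ _ := mul_le_mul_of_nonneg_left h3 (by positivity)
    have h2 : HasSum (fun j : ℕ => kap J * (1/2:ℝ)^j) (kap J * 2) := by
      apply HasSum.mul_left
      exact hasSum_geometric_two
    have h3 := Summable.tsum_le_tsum h1 ((summable_nat_add_iff J).2 (uj_summable hδ)) h2.summable
    rw [h2.tsum_eq] at h3
    linarith
  linarith

lemma ratio_tendsto : Tendsto (fun δ => (uu δ + 8 * δ) / th δ) (𝓝[>] 0) (𝓝 0) := by
  have hB : Tendsto (fun J : ℕ => 24 / ((J:ℝ) + 2) + 8 / Real.pi * (((J:ℝ) + 1) * (1/2)^J)) atTop (𝓝 0) := by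
    have h1 : Tendsto (fun J : ℕ => 24 / ((J:ℝ) + 2)) atTop (𝓝 0) := by
      apply Tendsto.div_atTop tendsto_const_nhds
      apply tendsto_atTop_add_const_right
      exact tendsto_natCast_atTop_atTop
    have h2 : Tendsto (fun J : ℕ => (((J:ℝ) + 1) * (1/2)^J)) atTop (𝓝 0) := by
      have h3 := tendsto_self_mul_const_pow_of_lt_one (r := (1/2:ℝ)) (by norm_num) (by norm_num)
      have h4 := tendsto_pow_atTop_nhds_zero_of_lt_one (r := (1/2:ℝ)) (by norm_num) (by norm_num)
      have h5 := h3.add h4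
      simp only [add_zero] at h5
      apply h5.congr
      intro n
      ring
    simpa using h1.add (h2.const_mul (8 / Real.pi))
  rw [Metric.tendsto_nhds]
  intro ε hε
  obtain ⟨J₀, hJ₀⟩ := (hB.eventually_lt_const hε).exists_forall_of_atTop
  have hnear : ∀ᶠ δ in 𝓝[>] (0:ℝ), δ ∈ Set.Ioo (0:ℝ) ((1/2)^J₀) :=
    Ioo_mem_nhdsGT (by positivity)
  filter_upwards [hnear] with δ hδ
  have hδ1 : δ ≤ 1 := hδ.2.le.trans (pow_le_one₀ (by norm_num) (by norm_num))
  obtain ⟨J, hJ1, hJ2⟩ := exists_nat_pow_near_of_lt_one hδ.1 hδ1 (by norm_num : (0:ℝ) < 1/2)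
    (by norm_num)
  have hJJ : J₀ ≤ J := by
    by_contra hcon
    push Not at hcon
    have : ((1:ℝ)/2)^J₀ ≤ (1/2)^(J+1) := by
      apply pow_le_pow_of_le_one (by norm_num) (by norm_num)
      omega
    linarith [hδ.2]
  have h1 : T J < δ := hJ1
  have h2 : δ ≤ 2 * T J := by
    unfold T
    rw [pow_succ]
    linarith
  have h3 := th_ge h1
  have h4 := uu_le h1 h2
  have hpi := Real.pi_pos
  have hthp : 0 < th δ := lt_of_lt_of_le (by positivity) h3
  have huup : 0 ≤ uu δ := tsum_nonneg (fun j => uj_nonneg j hδ.1)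
  rw [Real.dist_eq, sub_zero, abs_of_nonneg (by have := hδ.1; positivity)]
  refine lt_of_le_of_lt ?_ (hJ₀ J hJJ)
  rw [div_le_iff₀ hthp]
  have h5 : (24 / ((J:ℝ) + 2) + 8 / Real.pi * (((J:ℝ) + 1) * (1/2)^J)) * (Real.pi / (J + 1)) ≤
      (24 / ((J:ℝ) + 2) + 8 / Real.pi * (((J:ℝ) + 1) * (1/2)^J)) * th δ :=
    mul_le_mul_of_nonneg_left h3 (by positivity)
  have h6 : (24 / ((J:ℝ) + 2) + 8 / Real.pi * (((J:ℝ) + 1) * (1/2)^J)) * (Real.pi / (J + 1)) =
      12 * kap J + 8 * (1/2)^J := by
    unfold kap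
    field_simp
    ring
  rw [h6] at h5
  linarith

end Pool.Agent.R253.IT
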