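import Mathlib
import Pool.Agent.R253.IT.Tang
import Pool.Agent.R253.IT.Orb

open Complex Filter Topology

namespace Pool.Agent.R253.IT

noncomputable def dl (r : ℝ) : ℝ := (1 - r^3) / (1 + r^3)

lemma dl_pos {r : ℝ} (h0 : 0 < r) (h1 : r < 1) : 0 < dl r := by
  unfold dl
  have : r^3 < 1 := pow_lt_one₀ h0.le h1 (by norm_num)
  apply div_pos (by linarith) (by positivity)

lemma tz_neg {r : ℝ} (h0 : 0 < r) (h1 : r < 1) : tz (-(r:ℂ)) = ((1 / dl r : ℝ) : ℂ) := by
  unfold tz dl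
  have h3 : r^3 < 1 := pow_lt_one₀ h0.le h1 (by norm_num)
  have e : (1 / ((1 - r^3) / (1 + r^3)) : ℝ) = (1 + r^3) / (1 - r^3) := by
    rw [one_div, inv_div]
  rw [e]
  push_cast
  congr 1 <;> ring

lemma term_real (j : ℕ) {δ : ℝ} (hδ : 0 < δ) :
    term j ((1/δ : ℝ) : ℂ) = (uj j δ : ℂ) + I * ((kap j - thj j δ : ℝ) : ℂ) := by
  unfold term uj thj ms
  have hT := T_pos j
  have h1 : (1 - I * (T j : ℂ) * ((1/δ : ℝ) : ℂ)) ≠ 0 := by
    intro h
    have := congrArg Complex.re h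
    simp at this
  have h2 : ((δ:ℂ)^2 + (T j : ℂ)^2) ≠ 0 := by
    have : (δ^2 + T j^2 : ℝ) ≠ 0 := by positivity
    exact_mod_cast this
  have h3 : (δ:ℂ) ≠ 0 := by exact_mod_cast hδ.ne'
  have e0 : (1 - I * (T j : ℂ) * ((1/δ : ℝ) : ℂ)) = (δ - I * T j) / δ := by
    push_cast
    field_simp
  rw [e0] at h1 ⊢
  have h4 : ((δ:ℂ) - I * T j) ≠ 0 := by
    intro h
    rw [h] at h1
    simp at h1
  have h5 : ((δ:ℂ)^2 + (T j : ℂ)^2) = (δ - I * T j) * (δ + I * T j) := by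
    linear_combination (T j : ℂ)^2 * I_sq
  have h6 : ((δ:ℂ) + I * T j) ≠ 0 := by
    intro h
    rw [h, mul_zero] at h5
    exact h2 h5
  push_cast
  rw [div_div_eq_mul_div, div_eq_iff h4]
  rw [h5]
  have h4' : ((δ:ℂ) - T j * I) ≠ 0 := by rwa [mul_comm (T j : ℂ) I]
  have h6' : ((δ:ℂ) + T j * I) ≠ 0 := by rwa [mul_comm (T j : ℂ) I]
  field_simp
  linear_combination ((kap j : ℂ) * (T j)^2 * I) * I_sq

lemma H_real {δ : ℝ} (hδ : 0 < δ) :
    H ((1/δ : ℝ) : ℂ) = (uu δ : ℂ) + I * ((2 * Real.pi - th δ : ℝ) : ℂ) := by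
  have h1 : HasSum (fun j => term j ((1/δ : ℝ) : ℂ))
      ((uu δ : ℂ) + I * ((2 * Real.pi - th δ : ℝ) : ℂ)) := by
    simp_rw [fun j => term_real j hδ]
    apply HasSum.add
    · exact Complex.hasSum_ofReal.2 (uj_summable hδ).hasSum
    · apply HasSum.mul_left
      apply Complex.hasSum_ofReal.2
      have h2 := kap_hasSum 0
      simp only [add_zero, CharP.cast_eq_zero, zero_add, div_one] at h2
      exact h2.sub (thj_summable δ).hasSum
  exact h1.tsum_eq

lemma f_neg {r : ℝ} (h0 : 0 < r) (h1 : r < 1) :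
    f (-(r:ℂ)) = exp (((2 * Real.log r - uu (dl r) : ℝ) : ℂ) + I * (th (dl r) : ℂ)) := by
  unfold f
  rw [tz_neg h0 h1, H_real (dl_pos h0 h1)]
  have e1 : (-(r:ℂ))^2 = exp ((2 * Real.log r : ℝ) : ℂ) := by
    rw [← Complex.ofReal_exp, mul_comm, Real.exp_mul, Real.exp_log h0]
    norm_num
  rw [e1, ← Complex.exp_add]
  have e2 : ((2 * Real.log r : ℝ) : ℂ) + -((uu (dl r) : ℂ) + I * ((2 * Real.pi - th (dl r) : ℝ) : ℂ)) =
      (((2 * Real.log r - uu (dl r) : ℝ) : ℂ) + I * (th (dl r) : ℂ)) - 2 * Real.pi * I := by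
    push_cast
    ring
  rw [e2, Complex.exp_sub, Complex.exp_two_pi_mul_I, div_one]

lemma Z_f_neg {r : ℝ} (h0 : 0 < r) (h1 : r < 1) (h2 : 0 < th (dl r)) (h3 : th (dl r) < Real.pi) :
    Z (f (-(r:ℂ))) = (th (dl r) : ℂ) + I * ((uu (dl r) - 2 * Real.log r : ℝ) : ℂ) := by
  unfold Z
  rw [f_neg h0 h1, Complex.log_exp]
  · push_cast
    linear_combination (-(th (dl r)) : ℂ) * I_sq
  · simp
    linarith [Real.pi_pos]
  · simp
    linarith

lemma dl_tendsto : Tendsto dl (𝓝[<] 1) (𝓝[>] 0) := by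
  apply tendsto_nhdsWithin_iff.2
  constructor
  · have h : ContinuousAt dl 1 := by
      unfold dl
      have : (1:ℝ) + 1^3 ≠ 0 := by norm_num
      fun_prop (disch := assumption)
    have h1 : dl 1 = 0 := by unfold dl; simp
    have := h.tendsto
    rw [h1] at this
    exact this.mono_left nhdsWithin_le_nhds
  · have e1 : ∀ᶠ r in 𝓝[<] (1:ℝ), r < 1 := self_mem_nhdsWithin
    have e2 : ∀ᶠ r in 𝓝[<] (1:ℝ), 0 < r := nhdsWithin_le_nhds (Ioi_mem_nhds one_pos)
    filter_upwards [e1, e2] with r a b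
    exact dl_pos b a

lemma th_pos {δ : ℝ} (hδ : 0 < δ) : 0 < th δ := by
  unfold th
  apply (thj_summable δ).tsum_pos (fun j => thj_nonneg j δ) 0
  unfold thj
  have := kap_pos 0
  positivity

lemma neg_log_le {r : ℝ} (h0 : 1/2 ≤ r) (h1 : r < 1) : - (2 * Real.log r) ≤ 8 * dl r := by
  have hr : 0 < r := by linarith
  have h2 : Real.log (1/r) ≤ 1/r - 1 := Real.log_le_sub_one_of_pos (by positivity)
  rw [Real.log_div one_ne_zero hr.ne', Real.log_one, zero_sub] at h2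
  have h3 : 1/r - 1 ≤ 2 * (1 - r) := by
    rw [div_sub_one hr.ne', div_le_iff₀ hr]
    nlinarith
  have h4 : (1 - r) / 2 ≤ dl r := by
    unfold dl
    rw [le_div_iff₀ (by positivity)]
    have h5 : r^3 ≤ r := by nlinarith [mul_pos hr hr]
    nlinarith
  linarith

noncomputable def gam (r : ℝ) : ℂ := f (-(r:ℂ))

lemma norm_neg_lt {r : ℝ} (h0 : 0 < r) (h1 : r < 1) : ‖(-(r:ℂ))‖ < 1 := by
  rw [norm_neg, Complex.norm_real, Real.norm_eq_abs, abs_of_pos h0]
  exact h1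

lemma gam_lt {r : ℝ} (h : r ∈ Set.Ioo (0:ℝ) 1) : ‖gam r‖ < 1 := by
  have h1 := norm_neg_lt h.1 h.2
  have h2 := f_norm_le h1
  have h3 := norm_nonneg (-(r:ℂ))
  unfold gam
  nlinarith

lemma f_continuousOn : ContinuousOn f (Metric.ball 0 1) := by
  intro z hz
  exact (f_analyticAt (ball_sub_G (by simpa using hz))).continuousAt.continuousWithinAt

lemma gam_cont : ContinuousOn gam (Set.Ioo 0 1) := by
  unfold gam
  apply f_continuousOn.comp (by fun_prop)
  intro r hr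
  simp only [Metric.mem_ball, dist_zero_right]
  exact norm_neg_lt hr.1 hr.2

lemma ev_half : ∀ᶠ r in 𝓝[<] (1:ℝ), 1/2 ≤ r ∧ r < 1 := by
  have e1 : ∀ᶠ r in 𝓝[<] (1:ℝ), r < 1 := self_mem_nhdsWithin
  have e2 : ∀ᶠ r in 𝓝[<] (1:ℝ), 1/2 < r := nhdsWithin_le_nhds (Ioi_mem_nhds (by norm_num))
  filter_upwards [e1, e2] with r a b
  exact ⟨b.le, a⟩

lemma th_dl : Tendsto (fun r => th (dl r)) (𝓝[<] 1) (𝓝 0) :=
  th_tendsto.comp (dl_tendsto.mono_right nhdsWithin_le_nhds)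

lemma rat_dl : Tendsto (fun r => (uu (dl r) + 8 * dl r) / th (dl r)) (𝓝[<] 1) (𝓝 0) :=
  ratio_tendsto.comp dl_tendsto

lemma uu_dl : Tendsto (fun r => uu (dl r)) (𝓝[<] 1) (𝓝 0) := by
  have h := rat_dl.mul th_dl
  rw [mul_zero] at h
  apply squeeze_zero' _ _ h
  · filter_upwards [ev_half] with r hr
    exact tsum_nonneg (fun j => uj_nonneg j (dl_pos (by linarith [hr.1]) hr.2))
  · filter_upwards [ev_half] with r hr
    have h1 := dl_pos (by linarith [hr.1]) hr.2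
    have h2 := th_pos h1
    rw [div_mul_cancel₀ _ h2.ne']
    linarith

lemma gam_tendsto : Tendsto gam (𝓝[<] 1) (𝓝 1) := by
  have h1 : Tendsto (fun r => exp (((2 * Real.log r - uu (dl r) : ℝ) : ℂ) + I * (th (dl r) : ℂ)))
      (𝓝[<] 1) (𝓝 (exp (((2 * Real.log 1 - 0 : ℝ) : ℂ) + I * ((0:ℝ) : ℂ)))) := by
    apply (Complex.continuous_exp.tendsto _).comp
    apply Tendsto.add
    · apply (Complex.continuous_ofReal.tendsto _).comp
      apply Tendsto.sub _ uu_dl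
      apply Tendsto.const_mul
      exact ((Real.continuousAt_log one_ne_zero).tendsto).mono_left nhdsWithin_le_nhds
    · apply Tendsto.const_mul
      exact (Complex.continuous_ofReal.tendsto _).comp th_dl
  simp only [Real.log_one, mul_zero, sub_zero, Complex.ofReal_zero, add_zero, Complex.exp_zero] at h1
  apply h1.congr'
  filter_upwards [ev_half] with r hr
  exact (f_neg (by linarith [hr.1]) hr.2).symm

lemma ev_Z : ∀ᶠ r in 𝓝[<] (1:ℝ), Z (gam r) =
    (th (dl r) : ℂ) + I * ((uu (dl r) - 2 * Real.log r : ℝ) : ℂ) := by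
  filter_upwards [ev_half, th_dl.eventually_lt_const Real.pi_pos] with r hr h3
  exact Z_f_neg (by linarith [hr.1]) hr.2 (th_pos (dl_pos (by linarith [hr.1]) hr.2)) h3

lemma gam_re : ∀ᶠ r in 𝓝[<] (1:ℝ), 0 < (Z (gam r)).re := by
  filter_upwards [ev_half, ev_Z] with r hr h
  rw [h]
  simpa using th_pos (dl_pos (by linarith [hr.1]) hr.2)

lemma gam_ratio : Tendsto (fun r => (Z (gam r)).im / ‖Z (gam r)‖) (𝓝[<] 1) (𝓝 0) := by
  apply squeeze_zero' _ _ rat_dl
  · filter_upwards [ev_half] with r hr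
    apply div_nonneg _ (norm_nonneg _)
    rw [Z_im]
    have h := gam_lt (r := r) ⟨by linarith [hr.1], hr.2⟩
    have := Real.log_nonpos (norm_nonneg _) h.le
    linarith
  · filter_upwards [ev_half, ev_Z] with r hr h
    have h1 := dl_pos (by linarith [hr.1]) hr.2
    have h2 := th_pos h1
    have e1 : (Z (gam r)).im = uu (dl r) - 2 * Real.log r := by
      rw [h]; simp
    have e2 : (Z (gam r)).re = th (dl r) := by
      rw [h]; simp
    have h3 : th (dl r) ≤ ‖Z (gam r)‖ := by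
      rw [← e2]
      exact (le_abs_self _).trans (Complex.abs_re_le_norm _)
    have h4 := neg_log_le hr.1 hr.2
    have h5 : 0 ≤ uu (dl r) := tsum_nonneg (fun j => uj_nonneg j h1)
    rw [e1]
    apply div_le_div₀ (by positivity) (by linarith) h2 h3

end Pool.Agent.R253.IT
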