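import Mathlib
import Pool.Agent.R253.IT.Gam

open Complex Filter Topology

namespace Pool.Agent.R253.IT

/-- `Ψ(τ) = ∑ m_j τ / (1 - T_j τ)`. -/
noncomputable def Psi (τ : ℝ) : ℝ := ∑' j, ms j * τ / (1 - T j * τ)

lemma den_ge {τ : ℝ} (h0 : 0 ≤ τ) (h1 : τ ≤ 1) (j : ℕ) : 1/2 ≤ 1 - T j * τ := by
  have := T_pos j
  have := T_le_half j
  nlinarith

lemma psi_term_nonneg {τ : ℝ} (h0 : 0 ≤ τ) (h1 : τ ≤ 1) (j : ℕ) : 0 ≤ ms j * τ / (1 - T j * τ) := by
  have := den_ge h0 h1 j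
  have := ms_pos j
  apply div_nonneg (by positivity) (by linarith)

lemma psi_term_le {τ : ℝ} (h0 : 0 ≤ τ) (h1 : τ ≤ 1) (j : ℕ) : ms j * τ / (1 - T j * τ) ≤ 2 * ms j := by
  have h2 := den_ge h0 h1 j
  have h3 := ms_pos j
  rw [div_le_iff₀ (by linarith)]
  nlinarith

lemma psi_summable {τ : ℝ} (h0 : 0 ≤ τ) (h1 : τ ≤ 1) : Summable (fun j => ms j * τ / (1 - T j * τ)) :=
  Summable.of_nonneg_of_le (psi_term_nonneg h0 h1) (psi_term_le h0 h1) (ms_summable.mul_left 2)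

lemma psi_continuousOn : ContinuousOn Psi (Set.Icc 0 1) := by
  unfold Psi
  apply continuousOn_tsum (u := fun j => 2 * ms j) _ (ms_summable.mul_left 2)
  · intro j τ hτ
    rw [Real.norm_eq_abs, abs_of_nonneg (psi_term_nonneg hτ.1 hτ.2 j)]
    exact psi_term_le hτ.1 hτ.2 j
  · intro j
    apply ContinuousOn.div (by fun_prop) (by fun_prop)
    intro τ hτ
    have := den_ge hτ.1 hτ.2 j
    linarith

lemma psi_one : 2 * Real.pi / 3 ≤ Psi 1 := by
  have h1 : ms 0 * 1 / (1 - T 0 * 1) ≤ Psi 1 := by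
    unfold Psi
    exact (psi_summable zero_le_one le_rfl).le_tsum 0
      (fun j _ => psi_term_nonneg zero_le_one le_rfl j)
  have h2 : ms 0 * 1 / (1 - T 0 * 1) = Real.pi := by
    unfold ms kap T
    norm_num
  have := Real.pi_pos
  linarith

lemma psi_nonneg {τ : ℝ} (h0 : 0 ≤ τ) (h1 : τ ≤ 1) : 0 ≤ Psi τ :=
  tsum_nonneg (psi_term_nonneg h0 h1)

lemma exp_arctan (τ : ℝ) : exp (I * (Real.arctan τ : ℂ)) ^ 2 * (1 - I * τ) = 1 + I * τ := by
  have h1 : exp (I * (Real.arctan τ : ℂ)) = (Real.cos (Real.arctan τ) : ℂ) + (Real.sin (Real.arctan τ) : ℂ) * I := by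
    rw [mul_comm, Complex.exp_mul_I, Complex.ofReal_cos, Complex.ofReal_sin]
  have hs : (0:ℝ) < 1 + τ^2 := by positivity
  set q := Real.sqrt (1 + τ^2) with hq
  have hqp : 0 < q := Real.sqrt_pos.2 hs
  have hq2 : q^2 = 1 + τ^2 := Real.sq_sqrt hs.le
  rw [h1, Real.cos_arctan, Real.sin_arctan, ← hq]
  have hqc : (q:ℂ) ≠ 0 := by exact_mod_cast hqp.ne'
  have hq2c : (q:ℂ)^2 = 1 + (τ:ℂ)^2 := by exact_mod_cast hq2
  push_cast
  field_simp
  rw [hq2c]
  linear_combination (-(τ:ℂ)^2 - (τ:ℂ)^3 * I) * I_sq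

lemma tz_arc {τ : ℝ} : tz (exp (I * ((2/3 * Real.arctan τ : ℝ) : ℂ))) = -I * τ ∧
    1 + (exp (I * ((2/3 * Real.arctan τ : ℝ) : ℂ)))^3 ≠ 0 := by
  have e1 : (exp (I * ((2/3 * Real.arctan τ : ℝ) : ℂ)))^3 = exp (I * (Real.arctan τ : ℂ)) ^ 2 := by
    rw [← Complex.exp_nat_mul, ← Complex.exp_nat_mul]
    congr 1
    push_cast
    ring
  have h := exp_arctan τ
  have hne : (1 - I * (τ:ℂ)) ≠ 0 := by
    intro hh
    have := congrArg Complex.re hh
    simp at this
  set w := exp (I * (Real.arctan τ : ℂ)) ^ 2 with hw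
  have h2 : (1 + w) * (1 - I * τ) = 2 := by linear_combination h
  have hne2 : 1 + w ≠ 0 := by
    intro hh
    rw [hh, zero_mul] at h2
    norm_num at h2
  refine ⟨?_, by rw [e1]; exact hne2⟩
  unfold tz
  rw [e1, div_eq_iff hne2]
  have h3 : ((1 - w) - (-I * τ * (1 + w))) * (1 - I * τ) = 0 := by
    linear_combination (-(1:ℂ) + I * τ) * h
  rcases mul_eq_zero.1 h3 with h4 | h4
  · linear_combination h4
  · exact absurd h4 hne

lemma H_arc {τ : ℝ} : H (-I * τ) = -I * (Psi τ : ℂ) := by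
  unfold H Psi
  rw [Complex.ofReal_tsum, ← tsum_mul_left]
  congr 1
  ext j
  unfold term
  have e : (1 - I * (T j : ℂ) * (-I * τ)) = 1 - T j * τ := by
    linear_combination ((T j : ℂ) * τ) * I_sq
  rw [e]
  push_cast
  ring

lemma arc_mem {τ : ℝ} (h0 : 0 ≤ τ) (h1 : τ ≤ 1) :
    exp (I * ((2/3 * Real.arctan τ : ℝ) : ℂ)) ∈ G ∧
    f (exp (I * ((2/3 * Real.arctan τ : ℝ) : ℂ))) =
      exp (I * ((2 * (2/3 * Real.arctan τ) + Psi τ : ℝ) : ℂ)) := by
  obtain ⟨e1, e2⟩ := tz_arc (τ := τ)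
  constructor
  · refine ⟨e2, ?_⟩
    rw [e1]
    intro j h
    have e : (1 - I * (T j : ℂ) * (-I * τ)) = ((1 - T j * τ : ℝ) : ℂ) := by
      push_cast
      linear_combination ((T j : ℂ) * τ) * I_sq
    rw [e] at h
    have h2 : (1 - T j * τ : ℝ) = 0 := by exact_mod_cast h
    have := den_ge h0 h1 j
    linarith
  · unfold f
    rw [e1, H_arc, ← Complex.exp_nat_mul, ← Complex.exp_add]
    congr 1
    push_cast
    ring

/-- preimages near `1`. -/
lemma pre {y : ℝ} (h0 : 0 < y) (h1 : y ≤ 2 * Real.pi / 3) :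
    ∃ α : ℝ, 0 < α ∧ α ≤ y / 2 ∧ exp (I * (α : ℂ)) ∈ G ∧ f (exp (I * (α : ℂ))) = exp (I * (y : ℂ)) := by
  set Gm : ℝ → ℝ := fun τ => 2 * (2/3 * Real.arctan τ) + Psi τ with hGm
  have hc : ContinuousOn Gm (Set.Icc 0 1) := by
    apply ContinuousOn.add _ psi_continuousOn
    exact (Real.continuous_arctan.const_mul _ |>.const_mul _).continuousOn
  have hG0 : Gm 0 = 0 := by
    simp [hGm, Psi]
  have hG1 : 2 * Real.pi / 3 ≤ Gm 1 := by
    have h2 := psi_one
    have h3 : 0 ≤ Real.arctan 1 := by rw [Real.arctan_one]; positivity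
    simp only [hGm]
    linarith
  obtain ⟨τ, hτ, hτy⟩ := intermediate_value_Icc zero_le_one hc ⟨by rw [hG0]; exact h0.le, h1.trans hG1⟩
  have hτp : 0 < τ := by
    rcases eq_or_lt_of_le hτ.1 with h | h
    · rw [← h, hG0] at hτy
      linarith
    · exact h
  have hat : 0 < Real.arctan τ := Real.arctan_pos.2 hτp
  obtain ⟨m1, m2⟩ := arc_mem hτ.1 hτ.2
  refine ⟨2/3 * Real.arctan τ, by positivity, ?_, m1, ?_⟩
  · have := psi_nonneg hτ.1 hτ.2
    simp only [hGm] at hτy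
    linarith
  · rw [m2]
    simp only [hGm] at hτy
    rw [hτy]

noncomputable def om : ℂ := exp (I * ((2 * Real.pi / 3 : ℝ) : ℂ))

lemma om_cube : om^3 = 1 := by
  unfold om
  rw [← Complex.exp_nat_mul, ← Complex.exp_two_pi_mul_I]
  congr 1
  push_cast
  ring

lemma om_im : om.im = Real.sqrt 3 / 2 := by
  unfold om
  rw [mul_comm, Complex.exp_ofReal_mul_I_im]
  rw [show 2 * Real.pi / 3 = Real.pi - Real.pi / 3 by ring, Real.sin_pi_sub, Real.sin_pi_div_three]

lemma om_sq_im : (om^2).im = - (Real.sqrt 3 / 2) := by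
  unfold om
  rw [← Complex.exp_nat_mul]
  have : ((2:ℕ):ℂ) * (I * ((2 * Real.pi / 3 : ℝ) : ℂ)) = ((Real.pi / 3 + Real.pi : ℝ) : ℂ) * I := by
    push_cast
    ring
  rw [this, Complex.exp_ofReal_mul_I_im, Real.sin_add_pi, Real.sin_pi_div_three]

lemma om_dist : 3/2 < ‖om^2 - om‖ := by
  have h1 := Complex.abs_im_le_norm (om^2 - om)
  rw [Complex.sub_im, om_im, om_sq_im] at h1
  have h2 : (3:ℝ)/2 < Real.sqrt 3 := by
    apply Real.lt_sqrt_of_sq_lt
    norm_num
  have h3 : |-(Real.sqrt 3 / 2) - Real.sqrt 3 / 2| = Real.sqrt 3 := by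
    rw [show -(Real.sqrt 3 / 2) - Real.sqrt 3 / 2 = -Real.sqrt 3 by ring, abs_neg,
      abs_of_nonneg (Real.sqrt_nonneg _)]
  rw [h3] at h1
  linarith

lemma f_om : f om = om^2 := f_cube om_cube

lemma om_sq_cube : (om^2)^3 = 1 := by
  rw [← pow_mul, mul_comm, pow_mul, om_cube, one_pow]

lemma f_om_sq : f (om^2) = om := by
  rw [f_cube om_sq_cube]
  linear_combination om * om_cube

lemma cyc (i : ℕ) : (f^[i] om = om ∨ f^[i] om = om^2) ∧ ContinuousAt (f^[i]) om ∧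
    3/2 < ‖f^[i+1] om - f^[i] om‖ := by
  have h1 : ∀ i : ℕ, (f^[i] om = om ∨ f^[i] om = om^2) := by
    intro i
    induction i with
    | zero => left; rfl
    | succ i ih =>
      rw [Function.iterate_succ_apply']
      rcases ih with h | h
      · right; rw [h, f_om]
      · left; rw [h, f_om_sq]
  have hc1 : ContinuousAt f om := (f_analyticAt (G_cube om_cube)).continuousAt
  have hc2 : ContinuousAt f (om^2) := (f_analyticAt (G_cube om_sq_cube)).continuousAt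
  refine ⟨h1 i, ?_, ?_⟩
  · induction i with
    | zero => exact continuousAt_id
    | succ i ih =>
      rw [Function.iterate_succ']
      apply ContinuousAt.comp _ ih
      rcases h1 i with h | h
      · rw [h]; exact hc1
      · rw [h]; exact hc2
  · rw [Function.iterate_succ_apply']
    rcases h1 i with h | h
    · rw [h, f_om]; exact om_dist
    · rw [h, f_om_sq, norm_sub_rev]; exact om_dist

/-- points near `1` on the circle which reach `ω`. -/
lemma reach (m : ℕ) : ∃ β : ℝ, 0 < β ∧ β ≤ 2 * Real.pi / 3 / 2^m ∧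
    f^[m] (exp (I * (β:ℂ))) = om ∧ ContinuousAt (f^[m]) (exp (I * (β:ℂ))) := by
  induction m with
  | zero =>
    refine ⟨2 * Real.pi / 3, by positivity, by simp, rfl, continuousAt_id⟩
  | succ m ih =>
    obtain ⟨β, h1, h2, h3, h4⟩ := ih
    have h5 : β ≤ 2 * Real.pi / 3 := by
      refine h2.trans (div_le_self (by positivity) ?_)
      exact one_le_pow₀ (by norm_num)
    obtain ⟨α, a1, a2, a3, a4⟩ := pre h1 h5
    refine ⟨α, a1, ?_, ?_, ?_⟩
    · rw [pow_succ, ← div_div]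
      linarith
    · rw [Function.iterate_succ_apply, a4, h3]
    · rw [Function.iterate_succ]
      apply ContinuousAt.comp
      · rw [a4]; exact h4
      · exact (f_analyticAt a3).continuousAt

lemma hT_f : ∀ᶠ x : ℝ in 𝓝 0, ‖f (exp (I * x))‖ = 1 := by
  have h1 : ∀ᶠ z in 𝓝 (1:ℂ), z ∈ G := by
    have e1 : ∀ᶠ z in 𝓝 (1:ℂ), 1 + z^3 ≠ 0 := by
      have : ContinuousAt (fun z : ℂ => 1 + z^3) 1 := by fun_prop
      apply this.eventually_ne
      norm_num
    have e2 : ∀ᶠ z in 𝓝 (1:ℂ), tz z ∈ Om := by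
      obtain ⟨c, hc, h⟩ := exists_lower zero_mem_Om
      have h2 : ContinuousAt tz 1 := by
        unfold tz
        have : (1:ℂ) + 1^3 ≠ 0 := by norm_num
        fun_prop (disch := assumption)
      have h3 : ∀ᶠ z in 𝓝 (1:ℂ), ‖tz z - 0‖ < c := by
        have h4 : Tendsto (fun z => ‖tz z - 0‖) (𝓝 1) (𝓝 0) := by
          have := (h2.tendsto.sub_const 0).norm
          rwa [tz_one, sub_zero, norm_zero] at this
        exact h4.eventually_lt_const hc
      filter_upwards [h3] with z hz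
      intro j hj
      have := h (tz z) hz j
      rw [hj, norm_zero] at this
      linarith
    filter_upwards [e1, e2] with z a b
    exact ⟨a, b⟩
  have h2 : Tendsto (fun x : ℝ => exp (I * x)) (𝓝 0) (𝓝 1) := by
    have : Continuous (fun x : ℝ => exp (I * x)) := by fun_prop
    have := this.tendsto 0
    simpa using this
  filter_upwards [h2.eventually h1] with x hx
  apply f_norm_one _ hx
  rw [mul_comm]
  exact Complex.norm_exp_ofReal_mul_I x

/-- convergence to a point of the circle from the distance to `1`. -/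
lemma conv_arc {β : ℝ} (h0 : 0 < β) (h1 : β < Real.pi) {z : ℕ → ℂ}
    (hd : ∀ k, ‖z k - 1‖ = ‖exp (I * (β:ℂ)) - 1‖) (hn : Tendsto (fun k => ‖z k‖) atTop (𝓝 1))
    (him : ∀ k, 0 < (z k).im) : Tendsto z atTop (𝓝 (exp (I * (β:ℂ)))) := by
  have key : ∀ w : ℂ, w.re = (‖w‖^2 + 1 - ‖w - 1‖^2) / 2 := by
    intro w
    rw [← Complex.normSq_eq_norm_sq, ← Complex.normSq_eq_norm_sq, Complex.normSq_apply,
      Complex.normSq_apply]
    simp
    ring
  have hre : Tendsto (fun k => (z k).re) atTop (𝓝 (exp (I * (β:ℂ))).re) := by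
    rw [key (exp (I * (β:ℂ)))]
    have e1 : ‖exp (I * (β:ℂ))‖ = 1 := by rw [mul_comm]; exact Complex.norm_exp_ofReal_mul_I β
    rw [e1]
    have e2 : (fun k => (z k).re) = fun k => (‖z k‖^2 + 1 - ‖exp (I * (β:ℂ)) - 1‖^2) / 2 := by
      ext k
      rw [key (z k), hd k]
    rw [e2]
    exact (((hn.pow 2).add_const 1).sub_const _).div_const 2
  have hsin : 0 < (exp (I * (β:ℂ))).im := by
    rw [mul_comm, Complex.exp_ofReal_mul_I_im]
    exact Real.sin_pos_of_pos_of_lt_pi h0 h1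
  have him' : Tendsto (fun k => (z k).im) atTop (𝓝 (exp (I * (β:ℂ))).im) := by
    have e0 : ∀ w : ℂ, 0 < w.im → w.im = Real.sqrt (‖w‖^2 - w.re^2) := by
      intro w hw
      rw [eq_comm, Real.sqrt_eq_iff_mul_self_eq_of_pos hw, ← Complex.normSq_eq_norm_sq,
        Complex.normSq_apply]
      ring
    rw [e0 _ hsin]
    have e1 : ‖exp (I * (β:ℂ))‖ = 1 := by rw [mul_comm]; exact Complex.norm_exp_ofReal_mul_I β
    rw [e1]
    have e2 : (fun k => (z k).im) = fun k => Real.sqrt (‖z k‖^2 - (z k).re^2) := by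
      ext k
      exact e0 _ (him k)
    rw [e2]
    exact (Real.continuous_sqrt.tendsto _).comp ((hn.pow 2).sub (hre.pow 2))
  have e3 : z = fun k => ((z k).re : ℂ) + ((z k).im : ℂ) * I := by
    ext k
    exact (Complex.re_add_im _).symm
  rw [e3, ← Complex.re_add_im (exp (I * (β:ℂ)))]
  apply Tendsto.add
  · exact (Complex.continuous_ofReal.tendsto _).comp hre
  · exact ((Complex.continuous_ofReal.tendsto _).comp him').mul_const I

/-- **Unbounded variation of the orbits.** -/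
theorem var_unbounded (K : ℕ) (hK : 0 < K) (r₀ : ℝ) (hr₀ : r₀ < 1) :
    ∃ r : ℝ, r₀ < r ∧ 0 < r ∧ r < 1 ∧ ∃ N : ℕ,
      (K : ℝ) ≤ ∑ i ∈ Finset.range K, ‖f^[N+i+1] (gam r) - f^[N+i] (gam r)‖ := by
  obtain ⟨b, hb0, hb1, hb⟩ := escape f_continuousOn (f_analyticAt (G_cube (by norm_num))) f_one hT_f
    (fun z hz => f_norm_le hz) gam gam_cont (fun r hr => gam_lt hr) gam_tendsto gam_re gam_ratio
  -- choose m
  obtain ⟨m, hm⟩ : ∃ m : ℕ, 2 * Real.pi / 3 / 2^m ≤ b := by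
    have h1 : Tendsto (fun m : ℕ => 2 * Real.pi / 3 / 2^m) atTop (𝓝 0) := by
      apply Tendsto.div_atTop tendsto_const_nhds
      exact tendsto_pow_atTop_atTop_of_one_lt (by norm_num)
    obtain ⟨m, hm⟩ := (h1.eventually_lt_const hb0).exists
    exact ⟨m, hm.le⟩
  obtain ⟨β, b1, b2, b3, b4⟩ := reach m
  have hβb : β ≤ b := b2.trans hm
  have hβπ : β < Real.pi := by
    have := Real.pi_gt_three
    linarith
  have hd1 : ‖exp (I * (β:ℂ)) - 1‖ ≤ b := by
    have h1 := Real.norm_exp_I_mul_ofReal_sub_one_le (x := β)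
    rw [Real.norm_eq_abs, abs_of_pos b1] at h1
    exact h1.trans hβb
  have hd0 : 0 < ‖exp (I * (β:ℂ)) - 1‖ := by
    rw [norm_pos_iff, sub_ne_zero]
    intro h
    have h2 := congrArg Complex.im h
    rw [mul_comm, Complex.exp_ofReal_mul_I_im, Complex.one_im] at h2
    have := Real.sin_pos_of_pos_of_lt_pi b1 hβπ
    linarith
  have hex : ∀ k : ℕ, ∃ r : ℝ, r₀ < r ∧ 0 < r ∧ r < 1 ∧ ∃ N : ℕ,
      ‖f^[N] (gam r) - 1‖ = ‖exp (I * (β:ℂ)) - 1‖ ∧
        Real.exp (-(1 / ((k:ℝ) + 1))) ≤ ‖f^[N] (gam r)‖ ∧ ‖f^[N] (gam r)‖ < 1 ∧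
        0 < (f^[N] (gam r)).im := by
    intro k
    exact hb _ hd0 hd1 (1 / ((k:ℝ) + 1)) (by positivity) r₀ hr₀
  choose r hr1 hr2 hr3 N hN1 hN2 hN3 hN4 using hex
  have hnorm : Tendsto (fun k => ‖f^[N k] (gam (r k))‖) atTop (𝓝 1) := by
    have h1 : Tendsto (fun k : ℕ => Real.exp (-(1 / ((k:ℝ) + 1)))) atTop (𝓝 1) := by
      have h2 : Tendsto (fun k : ℕ => -(1 / ((k:ℝ) + 1))) atTop (𝓝 (-0)) :=
        tendsto_one_div_add_atTop_nhds_zero_nat.neg
      have h3 := (Real.continuous_exp.tendsto _).comp h2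
      simpa [Function.comp_def] using h3
    exact tendsto_of_tendsto_of_tendsto_of_le_of_le h1 tendsto_const_nhds hN2 (fun k => (hN3 k).le)
  have hlim := conv_arc b1 hβπ hN1 hnorm hN4
  have hlim2 : Tendsto (fun k => f^[m] (f^[N k] (gam (r k)))) atTop (𝓝 om) := by
    have := b4.tendsto.comp hlim
    rwa [b3] at this
  have hlim3 : ∀ i : ℕ, Tendsto (fun k => f^[i] (f^[m] (f^[N k] (gam (r k))))) atTop (𝓝 (f^[i] om)) := by
    intro i
    exact (cyc i).2.1.tendsto.comp hlim2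
  have hlim4 : Tendsto (fun k => ∑ i ∈ Finset.range K,
      ‖f^[i+1] (f^[m] (f^[N k] (gam (r k)))) - f^[i] (f^[m] (f^[N k] (gam (r k))))‖) atTop
      (𝓝 (∑ i ∈ Finset.range K, ‖f^[i+1] om - f^[i] om‖)) := by
    apply tendsto_finsetSum
    intro i _
    exact ((hlim3 (i+1)).sub (hlim3 i)).norm
  have hlt : (K:ℝ) < ∑ i ∈ Finset.range K, ‖f^[i+1] om - f^[i] om‖ := by
    have h1 : ∑ i ∈ Finset.range K, (3/2 : ℝ) ≤ ∑ i ∈ Finset.range K, ‖f^[i+1] om - f^[i] om‖ := by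
      apply Finset.sum_le_sum
      intro i _
      exact (cyc i).2.2.le
    rw [Finset.sum_const, Finset.card_range, nsmul_eq_mul] at h1
    have : (0:ℝ) < K := by exact_mod_cast hK
    linarith
  obtain ⟨k, hk⟩ := (hlim4.eventually_const_lt hlt).exists
  refine ⟨r k, hr1 k, hr2 k, hr3 k, m + N k, ?_⟩
  refine hk.le.trans (le_of_eq ?_)
  apply Finset.sum_congr rfl
  intro i _
  have e : ∀ i, f^[i] (f^[m] (f^[N k] (gam (r k)))) = f^[m + N k + i] (gam (r k)) := by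
    intro i
    rw [show m + N k + i = i + (m + N k) by omega, Function.iterate_add_apply,
      Function.iterate_add_apply]
  rw [e (i+1), e i]
  rfl

end Pool.Agent.R253.IT
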