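import Mathlib
import Pool.Agent.R253.IT.Cyc

open Complex Filter Topology
open scoped ZeroAtInfty ComplexConjugate

namespace Pool.Agent.R253.IT

lemma fit {z : ℂ} (hz : ‖z‖ < 1) (n : ℕ) : ‖f^[n] z‖ ≤ ‖z‖^(n+1) ∧ ‖f^[n] z‖ < 1 :=
  iter_norm_le (fun _ h => f_norm_le h) hz n

lemma f_diffOn : DifferentiableOn ℂ f (Metric.ball 0 1) := by
  intro z hz
  exact (f_analyticAt (ball_sub_G (by simpa using hz))).differentiableAt.differentiableWithinAt

lemma iter_diffOn (n : ℕ) : DifferentiableOn ℂ (f^[n]) (Metric.ball 0 1) := by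
  induction n with
  | zero => exact differentiableOn_id
  | succ n ih =>
    rw [Function.iterate_succ']
    apply f_diffOn.comp ih
    intro z hz
    simp only [Metric.mem_ball, dist_zero_right] at hz ⊢
    exact (fit hz n).2

/-- the coefficients with partial sums `A`. -/
noncomputable def co (A : ℕ → ℂ) (n : ℕ) : ℂ := A n - (if n = 0 then 0 else A (n-1))

lemma co_sum (A : ℕ → ℂ) (N : ℕ) : ∑ n ∈ Finset.range (N+1), co A n = A N := by
  induction N with
  | zero => simp [co]
  | succ N ih =>
    rw [Finset.sum_range_succ, ih]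
    simp [co]

lemma co_bound {A : ℕ → ℂ} {B : ℝ} (hB : ∀ n, ‖A n‖ ≤ B) (n : ℕ) : ‖co A n‖ ≤ 2 * B := by
  unfold co
  have h0 : 0 ≤ B := (norm_nonneg _).trans (hB 0)
  refine (norm_sub_le _ _).trans ?_
  split_ifs
  · rw [norm_zero]; linarith [hB n]
  · linarith [hB n, hB (n-1)]

noncomputable def d (z : ℂ) (n : ℕ) : ℂ := f^[n+1] z - f^[n+2] z

lemma summable_iter {z : ℂ} (hz : ‖z‖ < 1) : Summable (fun n => ‖f^[n+1] z‖) := by
  apply Summable.of_nonneg_of_le (fun n => norm_nonneg _) (fun n => (fit hz (n+1)).1)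
  have := summable_geometric_of_lt_one (norm_nonneg z) hz
  exact (summable_nat_add_iff (f := fun n => ‖z‖^n) 2).2 this

lemma summable_d {z : ℂ} (hz : ‖z‖ < 1) : Summable (fun n => ‖d z n‖) := by
  have h1 := summable_iter hz
  have h2 : Summable (fun n => ‖f^[n+2] z‖) := (summable_nat_add_iff (f := fun n => ‖f^[n+1] z‖) 1).2 h1
  apply Summable.of_nonneg_of_le (fun n => norm_nonneg _) _ (h1.add h2)
  intro n
  exact norm_sub_le _ _

/-- Abel summation. -/
lemma hasSum_co {A : ℕ → ℂ} {B : ℝ} (hB : ∀ n, ‖A n‖ ≤ B) {z : ℂ} (hz : ‖z‖ < 1) :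
    HasSum (fun n => co A n * f^[n+1] z) (∑' n, A n * d z n) := by
  have h1 := summable_iter hz
  have h2 : Summable (fun n => ‖f^[n+2] z‖) := (summable_nat_add_iff (f := fun n => ‖f^[n+1] z‖) 1).2 h1
  have s1 : Summable (fun n => A n * f^[n+1] z) := by
    apply Summable.of_norm_bounded (h1.mul_left B)
    intro n
    rw [norm_mul]
    exact mul_le_mul_of_nonneg_right (hB n) (norm_nonneg _)
  have s2 : Summable (fun n => A n * f^[n+2] z) := by
    apply Summable.of_norm_bounded (h2.mul_left B)
    intro n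
    rw [norm_mul]
    exact mul_le_mul_of_nonneg_right (hB n) (norm_nonneg _)
  have s3 : HasSum (fun n => (if n = 0 then 0 else A (n-1)) * f^[n+1] z) (∑' n, A n * f^[n+2] z) := by
    have := (hasSum_nat_add_iff (f := fun n => (if n = 0 then (0:ℂ) else A (n-1)) * f^[n+1] z) 1
      (g := ∑' n, A n * f^[n+2] z)).1 (by simpa using s2.hasSum)
    simpa using this
  have s4 := s1.hasSum.sub s3
  have e1 : ∑' n, A n * d z n = ∑' n, A n * f^[n+1] z - ∑' n, A n * f^[n+2] z := by
    rw [← s1.tsum_sub s2]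
    congr 1
    ext n
    unfold d
    ring
  rw [e1]
  apply s4.congr_fun
  intro n
  unfold co
  ring

/-- The functional. -/
noncomputable def Lam (z : ℂ) (hz : ‖z‖ < 1) : C₀(ℕ, ℂ) →L[ℂ] ℂ :=
  LinearMap.mkContinuous
    { toFun := fun A => ∑' n, A n * d z n
      map_add' := by
        intro A B
        have s : ∀ A : C₀(ℕ, ℂ), Summable (fun n => A n * d z n) := by
          intro A
          apply Summable.of_norm_bounded ((summable_d hz).mul_left ‖A‖)
          intro n
          rw [norm_mul]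
          exact mul_le_mul_of_nonneg_right (A.toBCF.norm_coe_le_norm n) (norm_nonneg _)
        rw [← (s A).tsum_add (s B)]
        congr 1
        ext n
        rw [ZeroAtInftyContinuousMap.add_apply]
        ring
      map_smul' := by
        intro c A
        simp only [RingHom.id_apply, smul_eq_mul]
        rw [← tsum_mul_left]
        congr 1
        ext n
        rw [ZeroAtInftyContinuousMap.smul_apply, smul_eq_mul]
        ring }
    (∑' n, ‖d z n‖)
    (by
      intro A
      have s : Summable (fun n => ‖A‖ * ‖d z n‖) := (summable_d hz).mul_left ‖A‖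
      have : ‖∑' n, A n * d z n‖ ≤ ∑' n, ‖A‖ * ‖d z n‖ := by
        apply tsum_of_norm_bounded s.hasSum
        intro n
        rw [norm_mul]
        exact mul_le_mul_of_nonneg_right (A.toBCF.norm_coe_le_norm n) (norm_nonneg _)
      rw [tsum_mul_left] at this
      simpa [mul_comm] using this)

lemma Lam_apply (z : ℂ) (hz : ‖z‖ < 1) (A : C₀(ℕ, ℂ)) : Lam z hz A = ∑' n, A n * d z n := rfl

/-- A finitely supported test sequence. -/
noncomputable def tst (v : ℕ → ℂ) (s : Finset ℕ) : C₀(ℕ, ℂ) where
  toFun := fun n => if n ∈ s then v n else 0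
  continuous_toFun := continuous_of_discreteTopology
  zero_at_infty' := by
    rw [Filter.cocompact_eq_cofinite]
    apply tendsto_nhds_of_eventually_eq
    rw [Filter.eventually_cofinite]
    apply s.finite_toSet.subset
    intro n hn
    by_contra h
    apply hn
    simp only [Finset.mem_coe] at h
    simp [h]

lemma tst_apply (v : ℕ → ℂ) (s : Finset ℕ) (n : ℕ) : tst v s n = if n ∈ s then v n else 0 := rfl

lemma Lam_norm_ge (z : ℂ) (hz : ‖z‖ < 1) (s : Finset ℕ) : ∑ n ∈ s, ‖d z n‖ ≤ ‖Lam z hz‖ := by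
  set v : ℕ → ℂ := fun n => conj (d z n) / ‖d z n‖ with hv
  have hn : ‖tst v s‖ ≤ 1 := by
    rw [← ZeroAtInftyContinuousMap.norm_toBCF_eq_norm, BoundedContinuousFunction.norm_le zero_le_one]
    intro n
    change ‖(if n ∈ s then v n else 0 : ℂ)‖ ≤ 1
    split_ifs
    · simp only [hv]
      rw [norm_div, RCLike.norm_conj, Complex.norm_real, norm_norm]
      exact div_self_le_one _
    · simp
  have h1 : Lam z hz (tst v s) = ((∑ n ∈ s, ‖d z n‖ : ℝ) : ℂ) := by
    rw [Lam_apply, tsum_eq_sum (s := s)]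
    · rw [Complex.ofReal_sum]
      apply Finset.sum_congr rfl
      intro n hn
      rw [tst_apply, if_pos hn]
      simp only [hv]
      by_cases h0 : d z n = 0
      · simp [h0]
      · have h2 : (‖d z n‖ : ℂ) ≠ 0 := by
          exact_mod_cast norm_ne_zero_iff.2 h0
        rw [div_mul_eq_mul_div, div_eq_iff h2, Complex.conj_mul']
        ring
    · intro n hn
      rw [tst_apply, if_neg hn, zero_mul]
  have h2 := (Lam z hz).le_opNorm (tst v s)
  rw [h1, Complex.norm_real, Real.norm_eq_abs] at h2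
  have h3 := le_abs_self (∑ n ∈ s, ‖d z n‖)
  have h4 := norm_nonneg (Lam z hz)
  nlinarith

end Pool.Agent.R253.IT
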