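import Mathlib
import Pool.Agent.R253.IT.Fin

open Complex Filter Topology
open scoped ZeroAtInfty

namespace Pool.Agent.R253.IT

/-- The radial sequence. -/
lemma exists_seq : ∃ r : ℕ → ℝ, (∀ k : ℕ, 1 - 1 / ((k:ℝ) + 1) < r k ∧ 0 < r k ∧ r k < 1) ∧
    ∀ (k : ℕ) (h : ‖(-(r k : ℂ))‖ < 1), (k:ℝ) + 1 ≤ ‖Lam (-(r k : ℂ)) h‖ := by
  have hex : ∀ k : ℕ, ∃ r : ℝ, 1 - 1 / ((k:ℝ) + 1) < r ∧ 0 < r ∧ r < 1 ∧ ∃ N : ℕ,
      ((k+1 : ℕ) : ℝ) ≤ ∑ i ∈ Finset.range (k+1), ‖f^[N+i+1] (gam r) - f^[N+i] (gam r)‖ := by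
    intro k
    apply var_unbounded (k+1) (by omega)
    have : 0 < 1 / ((k:ℝ) + 1) := by positivity
    linarith
  choose r h1 h2 h3 N hN using hex
  refine ⟨r, fun k => ⟨h1 k, h2 k, h3 k⟩, ?_⟩
  intro k h
  have h4 := Lam_norm_ge (-(r k : ℂ)) h ((Finset.range (k+1)).map (addLeftEmbedding (N k)))
  rw [Finset.sum_map] at h4
  have h5 := hN k
  push_cast at h5
  refine h5.trans (le_trans (le_of_eq ?_) h4)
  apply Finset.sum_congr rfl
  intro i _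
  unfold d gam
  simp only [addLeftEmbedding_apply]
  rw [← Function.iterate_succ_apply, ← Function.iterate_succ_apply, norm_sub_rev]

/-- **Counterexample coefficients.** -/
theorem exists_bad : ∃ A : C₀(ℕ, ℂ), ∀ (C r₀ : ℝ), r₀ < 1 → ∃ r : ℝ, r₀ < r ∧ r < 1 ∧
    C < ‖∑' n, A n * d (-(r:ℂ)) n‖ := by
  obtain ⟨r, hr, hL⟩ := exists_seq
  have hz : ∀ k, ‖(-(r k : ℂ))‖ < 1 := fun k => norm_neg_lt (hr k).2.1 (hr k).2.2
  have h1 : ¬ ∀ A : C₀(ℕ, ℂ), ∃ C, ∀ k, ‖Lam (-(r k : ℂ)) (hz k) A‖ ≤ C := by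
    intro h
    obtain ⟨C', hC'⟩ := banach_steinhaus h
    obtain ⟨k, hk⟩ := exists_nat_gt C'
    have := hL k (hz k)
    have := hC' k
    linarith
  push Not at h1
  obtain ⟨A, hA⟩ := h1
  refine ⟨A, ?_⟩
  intro C r₀ hr₀
  -- finitely many k with r k ≤ r₀
  obtain ⟨M, hM⟩ : ∃ M : ℕ, ∀ k ≥ M, r₀ < r k := by
    obtain ⟨M, hM⟩ := exists_nat_gt (1 / (1 - r₀))
    refine ⟨M, ?_⟩
    intro k hk
    have h2 := (hr k).1
    have hp : 0 < 1 - r₀ := by linarith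
    have h3 : (M:ℝ) ≤ k := by exact_mod_cast hk
    have h4 : 1 / ((k:ℝ) + 1) < 1 - r₀ := by
      rw [div_lt_iff₀ (by positivity)]
      rw [div_lt_iff₀ hp] at hM
      nlinarith
    linarith
  obtain ⟨k, hk⟩ := hA (|C| + ∑ j ∈ Finset.range M, ‖Lam (-(r j : ℂ)) (hz j) A‖)
  have hs : 0 ≤ ∑ j ∈ Finset.range M, ‖Lam (-(r j : ℂ)) (hz j) A‖ :=
    Finset.sum_nonneg (fun _ _ => norm_nonneg _)
  have hkM : M ≤ k := by
    by_contra hcon
    push Not at hcon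
    have h5 : ‖Lam (-(r k : ℂ)) (hz k) A‖ ≤ ∑ j ∈ Finset.range M, ‖Lam (-(r j : ℂ)) (hz j) A‖ :=
      Finset.single_le_sum (f := fun j => ‖Lam (-(r j : ℂ)) (hz j) A‖) (fun _ _ => norm_nonneg _)
        (Finset.mem_range.2 hcon)
    have := abs_nonneg C
    linarith
  refine ⟨r k, hM k hkM, (hr k).2.2, ?_⟩
  rw [Lam_apply] at hk
  have := le_abs_self C
  linarith

theorem main : ∃ f : ℂ → ℂ,
    (DifferentiableOn ℂ f (Metric.ball 0 1) ∧ (∀ z : ℂ, ‖z‖ < 1 → ‖f z‖ < 1) ∧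
      ∀ᵐ t : ℝ, ∃ ζ : ℂ, ‖ζ‖ = 1 ∧
        Tendsto (fun r : ℝ => f (r * exp (t * I))) (𝓝[<] 1) (𝓝 ζ)) ∧ f 0 = 0 ∧
    (¬ ∃ c : ℂ, ‖c‖ = 1 ∧ ∀ z : ℂ, ‖z‖ < 1 → f z = c * z) ∧
    ∃ (ξ : ℂ) (ℓ : ℕ → ℂ), ‖ξ‖ = 1 ∧
      (∀ n : ℕ, 1 ≤ n → Tendsto (fun r : ℝ => f^[n] (r * ξ)) (𝓝[<] 1) (𝓝 (ℓ n))) ∧
      ∃ (a : ℕ → ℂ) (F : ℂ → ℂ), DifferentiableOn ℂ F (Metric.ball 0 1) ∧
        (∀ z : ℂ, ‖z‖ < 1 → HasSum (fun n : ℕ => a (n+1) * f^[n+1] z) (F z)) ∧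
        TendstoLocallyUniformlyOn
          (fun (N : ℕ) (z : ℂ) => ∑ n ∈ Finset.range N, a (n+1) * f^[n+1] z) F atTop
          (Metric.ball 0 1) ∧
        (∃ s : ℂ, Tendsto (fun N : ℕ => ∑ n ∈ Finset.range N, a (n+1) * ℓ (n+1)) atTop (𝓝 s)) ∧
        (¬ ∃ L : ℂ, Tendsto (fun r : ℝ => F (r * ξ)) (𝓝[<] 1) (𝓝 L)) ∧
        (∀ C r₀ : ℝ, r₀ < 1 → ∃ r : ℝ, r₀ < r ∧ r < 1 ∧ C < ‖F (r * ξ)‖) := by
  obtain ⟨A, hA⟩ := exists_bad
  refine ⟨f, ⟨f_diffOn, ?_, f_inner⟩, f_zero, ?_, -1, fun _ => 1, by simp, ?_, ?_⟩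
  · intro z hz
    have h1 := f_norm_le hz
    have h2 := norm_nonneg z
    nlinarith
  · rintro ⟨c, hc, h⟩
    have hn : ‖(1/2 : ℂ)‖ = 1/2 := by norm_num
    have h1 := h (1/2) (by rw [hn]; norm_num)
    have h2 := f_norm_le (z := 1/2) (by rw [hn]; norm_num)
    rw [h1, norm_mul, hc, hn] at h2
    norm_num at h2
  · intro n hn
    obtain ⟨m, rfl⟩ : ∃ m, n = m + 1 := ⟨n - 1, by omega⟩
    have hcn : ContinuousAt (f^[m]) 1 :=
      ContinuousAt.iterate (f_analyticAt (G_cube (by norm_num))).continuousAt f_one m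
    have hfix : f^[m] 1 = 1 := Function.iterate_fixed f_one m
    have h2 : Tendsto (fun r => f^[m] (gam r)) (𝓝[<] 1) (𝓝 1) := by
      have := hcn.tendsto.comp gam_tendsto
      rwa [hfix] at this
    apply h2.congr
    intro r
    rw [Function.iterate_succ_apply]
    unfold gam
    congr 2
    ring
  · have hB : ∀ n, ‖A n‖ ≤ ‖A‖ := fun n => A.toBCF.norm_coe_le_norm n
    set b : ℕ → ℂ := co A with hb
    have hbB : ∀ n, ‖b n‖ ≤ 2 * ‖A‖ := fun n => co_bound hB n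
    set F : ℂ → ℂ := fun z => ∑' n, A n * d z n with hF
    have hs : ∀ z : ℂ, ‖z‖ < 1 → HasSum (fun n => b n * f^[n+1] z) (F z) := fun z hz =>
      hasSum_co hB hz
    have hbound : ∀ ρ : ℝ, 0 ≤ ρ → ρ < 1 → ∀ n, ∀ z ∈ Metric.ball (0:ℂ) ρ,
        ‖b n * f^[n+1] z‖ ≤ 2 * ‖A‖ * ρ^n := by
      intro ρ h0 h1 n z hz
      simp only [Metric.mem_ball, dist_zero_right] at hz
      rw [norm_mul]
      have h2 := (fit (hz.trans h1) (n+1)).1
      have h3 : ‖z‖^(n+1+1) ≤ ρ^(n+1+1) := pow_le_pow_left₀ (norm_nonneg _) hz.le _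
      have h4 : ρ^(n+1+1) ≤ ρ^n := pow_le_pow_of_le_one h0 h1.le (by omega)
      exact mul_le_mul (hbB n) (h2.trans (h3.trans h4)) (norm_nonneg _) (by positivity)
    have hFeq : ∀ z : ℂ, ‖z‖ < 1 → F z = ∑' n, b n * f^[n+1] z := fun z hz => (hs z hz).tsum_eq.symm
    have hunif : ∀ ρ : ℝ, 0 ≤ ρ → ρ < 1 → TendstoUniformlyOn
        (fun (N : ℕ) (z : ℂ) => ∑ n ∈ Finset.range N, b n * f^[n+1] z) F atTop
        (Metric.ball 0 ρ) := by
      intro ρ h0 h1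
      have h2 := tendstoUniformlyOn_tsum_nat (f := fun n z => b n * f^[n+1] z)
        (u := fun n => 2 * ‖A‖ * ρ^n) ((summable_geometric_of_lt_one h0 h1).mul_left _)
        (s := Metric.ball 0 ρ) (hbound ρ h0 h1)
      apply h2.congr_right
      intro z hz
      simp only [Metric.mem_ball, dist_zero_right] at hz
      exact (hFeq z (hz.trans h1)).symm
    have hloc : TendstoLocallyUniformlyOn
        (fun (N : ℕ) (z : ℂ) => ∑ n ∈ Finset.range N, b n * f^[n+1] z) F atTop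
        (Metric.ball 0 1) := by
      rw [tendstoLocallyUniformlyOn_iff_forall_isCompact Metric.isOpen_ball]
      intro K hK hKc
      obtain ⟨ρ, hρ1, hρ2⟩ : ∃ ρ : ℝ, ρ < 1 ∧ K ⊆ Metric.ball 0 ρ := by
        rcases K.eq_empty_or_nonempty with rfl | hne
        · exact ⟨0, one_pos, Set.empty_subset _⟩
        · obtain ⟨z₀, hz₀, hmax⟩ := hKc.exists_isMaxOn hne continuous_norm.continuousOn
          have h3 : ‖z₀‖ < 1 := by simpa using hK hz₀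
          refine ⟨(‖z₀‖ + 1) / 2, by linarith, ?_⟩
          intro z hz
          have : ‖z‖ ≤ ‖z₀‖ := hmax hz
          simp only [Metric.mem_ball, dist_zero_right]
          linarith
      rcases lt_or_ge ρ 0 with h | h
      · have : K = ∅ := by
          rw [Metric.ball_eq_empty.2 h.le] at hρ2
          exact Set.subset_empty_iff.1 hρ2
        rw [this]
        exact tendstoUniformlyOn_empty
      · exact (hunif ρ h hρ1).mono hρ2
    refine ⟨fun n => b (n-1), F, ?_, ?_, ?_, ?_, ?_, ?_⟩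
    · apply hloc.differentiableOn _ Metric.isOpen_ball
      filter_upwards with N
      apply DifferentiableOn.fun_sum
      intro n _
      exact (iter_diffOn (n+1)).const_mul _
    · intro z hz
      simpa using hs z hz
    · simpa using hloc
    · refine ⟨0, ?_⟩
      rw [← tendsto_add_atTop_iff_nat 1]
      have h1 : (fun N : ℕ => ∑ n ∈ Finset.range (N+1), b (n + 1 - 1) * (1:ℂ)) = fun N => A N := by
        ext N
        simp only [Nat.add_sub_cancel, mul_one]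
        exact co_sum A N
      rw [h1]
      have h2 := A.zero_at_infty'
      rw [Filter.cocompact_eq_cofinite, Nat.cofinite_eq_atTop] at h2
      exact h2
    · rintro ⟨L, hL⟩
      have h1 := hL.norm.eventually_lt_const (lt_add_one ‖L‖)
      obtain ⟨r₁, hr₁, hr₁'⟩ := (mem_nhdsLT_iff_exists_Ioo_subset (a := (1:ℝ))).1 h1
      obtain ⟨r, h2, h3, h4⟩ := hA (‖L‖ + 1) r₁ hr₁
      have h5 : ‖F (r * (-1))‖ < ‖L‖ + 1 := hr₁' ⟨h2, h3⟩
      rw [mul_neg_one] at h5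
      linarith
    · intro C r₀ hr₀
      obtain ⟨r, h2, h3, h4⟩ := hA C r₀ hr₀
      refine ⟨r, h2, h3, ?_⟩
      rw [mul_neg_one]
      exact h4

end Pool.Agent.R253.IT
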